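import Pool.Agent.H568R2.Defs

set_option autoImplicit false

/-!
Vertex covers and the quantities computed by circuits.
-/

namespace Pool.Agent.J4H64.VC

open DomAC0
open scoped Classical

/-- `A` is a vertex cover of `G`. -/
def IsCover {n : ℕ} (G : SimpleGraph (Fin n)) (A : Finset (Fin n)) : Prop :=
  ∀ u v, G.Adj u v → u ∈ A ∨ v ∈ A

/-- The least number of vertices of a vertex cover of `G`. -/
noncomputable def tau {n : ℕ} (G : SimpleGraph (Fin n)) : ℕ :=
  sInf {m | ∃ A : Finset (Fin n), IsCover G A ∧ A.card = m}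

/-- Every vertex of `G` has at most `Δ` neighbours. -/
def MaxDeg {n : ℕ} (Δ : ℕ) (G : SimpleGraph (Fin n)) : Prop :=
  ∀ v, (Finset.univ.filter fun u => G.Adj v u).card ≤ Δ

/-- The value (`0` or `1`) of the node `v` of the circuit `C` which reads the adjacency bits
of the graph `G`. -/
noncomputable def bit {n : ℕ} (C : Circuit (Pairs n)) (v : Pairs n ⊕ Fin C.size)
    (G : SimpleGraph (Fin n)) : ℝ :=
  if C.nodeVal (adjBits G) v = true then 1 else 0

/-- The set of the vertices `i` for which the node `out i` has the value one. -/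
noncomputable def sel {n : ℕ} (C : Circuit (Pairs n)) (out : Fin n → Pairs n ⊕ Fin C.size)
    (G : SimpleGraph (Fin n)) : Finset (Fin n) :=
  Finset.univ.filter fun i => C.nodeVal (adjBits G) (out i) = true

/-- The average of `f` over a finite set. -/
noncomputable def avg {Ω : Type} [Fintype Ω] (f : Ω → ℝ) : ℝ :=
  (∑ ω, f ω) / Fintype.card Ω

end Pool.Agent.J4H64.VC
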