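import Pool.Agent.J4H64.VC.Hybrid
import Pool.Agent.J4H64.VC.Defs

set_option autoImplicit false
set_option linter.unusedSectionVars false

/-!
The hybrid argument in terms of averages.
-/

namespace Pool.Agent.J4H64.VC

open Finset
open scoped Classical

variable {V E C R : Type} [Fintype V] [Fintype E] [Fintype C] [Fintype R] {src tgt : E → V}

/-- the instance used for the namings -/
@[instance_reducible] noncomputable def fY (V C R : Type) [Fintype V] [Fintype C] [Fintype R] :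
    Fintype (V → Equiv.Perm (Ps C R)) := inferInstance

theorem avg_cn (s : C → Bool) (f : (E → Equiv.Perm (Ps C R)) → Bool) :
    @avg _ (fY V C R) (fun y => if f (mk src tgt s y) = true then 1 else 0) =
      (cn src tgt s (fun ω => f ω = true) : ℝ) / (@Fintype.card _ (fY V C R) : ℝ) := by
  unfold avg cn fY
  rw [natCast_card_filter]
  congr 1
  refine sum_congr rfl fun y _ => ?_
  by_cases h : f (mk src tgt s y) = true
  · simp only [h, if_true]
  · simp only [h, if_false]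

theorem avg_inst {Ω : Type} (i j : Fintype Ω) (f : Ω → ℝ) : @avg Ω i f = @avg Ω j f := by
  rw [Subsingleton.elim i j]

/-- The hybrid argument for averages. -/
theorem fool_avg [Nonempty R] {Δ K g₀ : ℕ}
    (hΔ : ∀ v, (univ.filter fun e => src e = v).card + (univ.filter fun e => tgt e = v).card ≤ Δ)
    (hT : Tree src tgt g₀) {d : ℕ}
    (hg : el Δ K d ≤ g₀) (hR : 2 * el Δ K d ≤ Fintype.card R) :
    ∃ a₀ : ℕ, ∀ a ≥ a₀, ∀ N : ℕ, 2 * a ^ ex Δ K d 0 + 1 ≤ N →
      ∀ (inst : Fintype (V → Equiv.Perm (Ps (Fin N) R)))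
      {X : Type} (T : Net E (Ps (Fin N) R) X) (S : ℕ) (A : Finset X),
      (∀ v, T.lev v ≠ 0 → v ∈ A) → A.card ≤ S → ∀ v, T.lev v ≤ d →
      |@avg _ inst (fun y => if T.val v (mk src tgt (fun _ => false) y) = true then 1 else 0) -
        @avg _ inst (fun y => if T.val v (mk src tgt (fun _ => true) y) = true then 1 else 0)| *
        (a : ℝ) ^ (K * ex Δ K d 0) ≤ N * S := by
  obtain ⟨a₀, ha₀⟩ := fool_net (K := K) (d := d) hΔ hT hg hR
  refine ⟨a₀ + 1, fun a ha N hN inst X T S A hA hS v hv => ?_⟩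
  have h1 := ha₀ a (by omega) N hN T S A hA hS v hv
  rw [avg_inst inst (fY V (Fin N) R), avg_inst inst (fY V (Fin N) R), avg_cn, avg_cn]
  clear inst
  obtain ⟨Y, hY⟩ : ∃ Y, Y = @Fintype.card _ (fY V (Fin N) R) := ⟨_, rfl⟩
  have hY0 : 0 < Y := by
    rw [hY]
    exact @Fintype.card_pos _ (fY V (Fin N) R) ⟨1⟩
  obtain ⟨c0, hc0⟩ : ∃ c0, c0 = cn src tgt (fun _ : Fin N => false) (fun ω => T.val v ω = true) :=
    ⟨_, rfl⟩
  obtain ⟨c1, hc1⟩ : ∃ c1, c1 = cn src tgt (fun _ : Fin N => true) (fun ω => T.val v ω = true) :=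
    ⟨_, rfl⟩
  obtain ⟨W, hW⟩ : ∃ W, W = a ^ (K * ex Δ K d 0) := ⟨_, rfl⟩
  have h1' : c0 * W ≤ c1 * W + N * (S * Y) ∧ c1 * W ≤ c0 * W + N * (S * Y) := by
    rw [hc0, hc1, hW, hY]
    exact h1
  rw [← hY, ← hc0, ← hc1]
  have hWR : (a : ℝ) ^ (K * ex Δ K d 0) = W := by rw [hW]; push_cast; rfl
  rw [hWR]
  have hYR : (0 : ℝ) < Y := by exact_mod_cast hY0
  have h2 : (c0 : ℝ) * W ≤ c1 * W + N * (S * Y) := by exact_mod_cast h1'.1
  have h3 : (c1 : ℝ) * W ≤ c0 * W + N * (S * Y) := by exact_mod_cast h1'.2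
  have hW0 : (0 : ℝ) ≤ W := Nat.cast_nonneg W
  rw [← sub_div, abs_div, abs_of_pos hYR, div_mul_eq_mul_div, div_le_iff₀ hYR]
  have h4 : |(c0 : ℝ) - c1| * W = |((c0 : ℝ) - c1) * W| := by
    rw [abs_mul, abs_of_nonneg hW0]
  rw [h4, abs_le]
  constructor <;> nlinarith

end Pool.Agent.J4H64.VC
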