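import Mathlib

set_option autoImplicit false
set_option linter.unusedSectionVars false

/-!
Worlds, facts, unambiguous certificates and the exploration in rounds.
-/

namespace Pool.Agent.J4H64.VC

open Finset
open scoped Classical

section gen

variable {V E P : Type} [Fintype V] [Fintype E] [Fintype P] (src tgt : E → V)

/-- the fact `φ = (e, x, z)` says that `ω e` maps `x` to `z` -/
def Holds (ω : E → Equiv.Perm P) (φ : E × P × P) : Prop := ω φ.1 φ.2.1 = φ.2.2

/-- all facts hold -/
def Sat (ω : E → Equiv.Perm P) (κ : Finset (E × P × P)) : Prop := ∀ φ ∈ κ, Holds ω φ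

/-- the first label of a fact -/
def la (φ : E × P × P) : V × P := (src φ.1, φ.2.1)

/-- the second label of a fact -/
def lb (φ : E × P × P) : V × P := (tgt φ.1, φ.2.2)

/-- the fact contains a label of `Z` -/
def Meets (φ : E × P × P) (Z : Finset (V × P)) : Prop := la src φ ∈ Z ∨ lb tgt φ ∈ Z

/-- the labels of a set of facts -/
noncomputable def labs (κ : Finset (E × P × P)) : Finset (V × P) :=
  κ.image (la src) ∪ κ.image (lb tgt)

theorem card_labs (κ : Finset (E × P × P)) : (labs src tgt κ).card ≤ 2 * κ.card := by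
  unfold labs
  refine (card_union_le _ _).trans ?_
  have h1 := card_image_le (s := κ) (f := la src)
  have h2 := card_image_le (s := κ) (f := lb tgt)
  omega

/-- `f` has unambiguous certificates of size at most `T` on `W`. -/
def UC (T : ℕ) (W : Set (E → Equiv.Perm P)) (f : (E → Equiv.Perm P) → Prop) : Prop :=
  ∃ c : (E → Equiv.Perm P) → Finset (E × P × P), ∀ ω ∈ W, Sat ω (c ω) ∧ (c ω).card ≤ T ∧
    ∀ ω' ∈ W, Sat ω' (c ω) → c ω' = c ω ∧ (f ω' ↔ f ω)

theorem UC.mono {T T' : ℕ} {W W' : Set (E → Equiv.Perm P)} {f : (E → Equiv.Perm P) → Prop}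
    (h : UC T W f) (hT : T ≤ T') (hW : W' ⊆ W) : UC T' W' f := by
  obtain ⟨c, hc⟩ := h
  exact ⟨c, fun ω hω => ⟨(hc ω (hW hω)).1, (hc ω (hW hω)).2.1.trans hT,
    fun ω' hω' => (hc ω (hW hω)).2.2 ω' (hW hω')⟩⟩

theorem UC.congr {T : ℕ} {W : Set (E → Equiv.Perm P)} {f g : (E → Equiv.Perm P) → Prop}
    (h : UC T W f) (hfg : ∀ ω ∈ W, f ω ↔ g ω) : UC T W g := by
  obtain ⟨c, hc⟩ := h
  refine ⟨c, fun ω hω => ⟨(hc ω hω).1, (hc ω hω).2.1, fun ω' hω' h => ?_⟩⟩
  rw [← hfg ω hω, ← hfg ω' hω']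
  exact (hc ω hω).2.2 ω' hω' h

theorem UC.not {T : ℕ} {W : Set (E → Equiv.Perm P)} {f : (E → Equiv.Perm P) → Prop}
    (h : UC T W f) : UC T W fun ω => ¬ f ω := by
  obtain ⟨c, hc⟩ := h
  refine ⟨c, fun ω hω => ⟨(hc ω hω).1, (hc ω hω).2.1, fun ω' hω' h => ?_⟩⟩
  obtain ⟨h1, h2⟩ := (hc ω hω).2.2 ω' hω' h
  exact ⟨h1, not_congr h2⟩

theorem UC.const (T : ℕ) (W : Set (E → Equiv.Perm P)) (p : Prop) : UC T W fun _ => p :=
  ⟨fun _ => ∅, fun _ _ => ⟨fun φ hφ => absurd hφ (notMem_empty _), by simp,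
    fun _ _ _ => ⟨rfl, Iff.rfl⟩⟩⟩

/-- exploration in rounds: in each round all facts at the labels `Z κ` are added -/
noncomputable def rd (Z : Finset (E × P × P) → Finset (V × P)) (ω : E → Equiv.Perm P) :
    ℕ → Finset (E × P × P)
  | 0 => ∅
  | r + 1 => rd Z ω r ∪ univ.filter fun φ => Holds ω φ ∧ Meets src tgt φ (Z (rd Z ω r))

variable {src tgt} {Z : Finset (E × P × P) → Finset (V × P)}

theorem rd_sat (ω : E → Equiv.Perm P) (r : ℕ) : Sat ω (rd src tgt Z ω r) := by
  induction r with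
  | zero => intro φ hφ; exact absurd hφ (notMem_empty _)
  | succ r ih =>
    intro φ hφ
    rw [rd, mem_union, mem_filter] at hφ
    rcases hφ with h | h
    · exact ih φ h
    · exact h.2.1

theorem rd_mono (ω : E → Equiv.Perm P) {r r' : ℕ} (h : r ≤ r') :
    rd src tgt Z ω r ⊆ rd src tgt Z ω r' := by
  induction h with
  | refl => exact Subset.refl _
  | step _ ih => exact ih.trans (by rw [rd]; exact subset_union_left)

theorem rd_uniq (ω ω' : E → Equiv.Perm P) (r : ℕ) (h : Sat ω' (rd src tgt Z ω r)) :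
    rd src tgt Z ω' r = rd src tgt Z ω r := by
  induction r with
  | zero => rfl
  | succ r ih =>
    have h1 := ih fun φ hφ => h φ (rd_mono ω (Nat.le_succ r) hφ)
    rw [rd, rd, h1]
    congr 1
    ext φ
    rw [mem_filter, mem_filter]
    have key : ∀ φ : E × P × P, Holds ω φ → Meets src tgt φ (Z (rd src tgt Z ω r)) →
        Holds ω' φ := by
      intro φ h2 h3
      refine h φ ?_
      rw [rd, mem_union, mem_filter]
      exact Or.inr ⟨mem_univ _, h2, h3⟩
    constructor
    · rintro ⟨-, h2, h3⟩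
      refine ⟨mem_univ _, ?_, h3⟩
      obtain ⟨e, x, z⟩ := φ
      rcases h3 with h3 | h3
      · have h4 := key (e, x, ω e x) rfl (Or.inl h3)
        unfold Holds at h2 h4 ⊢
        simp only at h2 h4 ⊢
        rw [← h4, h2]
      · have h4 := key (e, (ω e).symm z, z) (by unfold Holds; simp) (Or.inr h3)
        unfold Holds at h2 h4 ⊢
        simp only at h2 h4 ⊢
        have h5 : (ω e).symm z = x := (ω' e).injective (h4.trans h2.symm)
        rw [← h5]; simp
    · rintro ⟨-, h2, h3⟩
      exact ⟨mem_univ _, key φ h2 h3, h3⟩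

theorem card_incident {Δ : ℕ}
    (hΔ : ∀ v, (univ.filter fun e => src e = v).card + (univ.filter fun e => tgt e = v).card ≤ Δ)
    (ω : E → Equiv.Perm P) (A : Finset (V × P)) :
    (univ.filter fun φ => Holds ω φ ∧ Meets src tgt φ A).card ≤ Δ * A.card := by
  have h1 : (univ.filter fun φ => Holds ω φ ∧ Meets src tgt φ A) ⊆
      A.biUnion fun l => ((univ.filter fun e => src e = l.1).image fun e => (e, l.2, ω e l.2)) ∪
        ((univ.filter fun e => tgt e = l.1).image fun e => (e, (ω e).symm l.2, l.2)) := by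
    intro φ hφ
    obtain ⟨-, h2, h3⟩ := mem_filter.1 hφ
    obtain ⟨e, x, z⟩ := φ
    unfold Holds at h2
    simp only at h2
    rw [mem_biUnion]
    rcases h3 with h3 | h3
    · refine ⟨_, h3, mem_union_left _ (mem_image.2 ⟨e, mem_filter.2 ⟨mem_univ _, rfl⟩, ?_⟩)⟩
      simp [la, h2]
    · refine ⟨_, h3, mem_union_right _ (mem_image.2 ⟨e, mem_filter.2 ⟨mem_univ _, rfl⟩, ?_⟩)⟩
      simp [lb, ← h2]
  refine (card_le_card h1).trans ((card_biUnion_le).trans ?_)
  rw [mul_comm]
  refine (sum_le_card_nsmul _ _ Δ fun l _ => ?_).trans (by simp)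
  refine (card_union_le _ _).trans (le_trans ?_ (hΔ l.1))
  exact add_le_add card_image_le card_image_le

/-- the bound of the size after `r` rounds -/
def bd (Δ : ℕ) (ζ : ℕ → ℕ) : ℕ → ℕ
  | 0 => 0
  | r + 1 => bd Δ ζ r + Δ * ζ (bd Δ ζ r)

theorem card_rd {Δ : ℕ}
    (hΔ : ∀ v, (univ.filter fun e => src e = v).card + (univ.filter fun e => tgt e = v).card ≤ Δ)
    {ζ : ℕ → ℕ} (hζ : Monotone ζ) (hZ : ∀ κ, (Z κ).card ≤ ζ κ.card) (ω : E → Equiv.Perm P)
    (r : ℕ) : (rd src tgt Z ω r).card ≤ bd Δ ζ r := by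
  induction r with
  | zero => simp [rd, bd]
  | succ r ih =>
    rw [rd, bd]
    refine (card_union_le _ _).trans (add_le_add ih ((card_incident hΔ ω _).trans ?_))
    exact Nat.mul_le_mul_left _ ((hZ _).trans (hζ ih))

end gen

/-! ### Positions and views -/

/-- positions: a group, a slot and a bit -/
@[ext] structure Ps (C R : Type) where
  /-- the group -/
  g : C
  /-- the slot -/
  t : R
  /-- the bit -/
  b : Bool

/-- positions as triples -/
def psEquiv (C R : Type) : (C × R × Bool) ≃ Ps C R where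
  toFun p := ⟨p.1, p.2.1, p.2.2⟩
  invFun p := (p.g, p.t, p.b)
  left_inv _ := rfl
  right_inv _ := rfl

instance {C R : Type} [Fintype C] [Fintype R] : Fintype (Ps C R) :=
  Fintype.ofEquiv _ (psEquiv C R)

theorem card_ps (C R : Type) [Fintype C] [Fintype R] :
    Fintype.card (Ps C R) = Fintype.card C * (Fintype.card R * 2) := by
  rw [← Fintype.card_congr (psEquiv C R), Fintype.card_prod, Fintype.card_prod, Fintype.card_bool]

section views

variable {V E C R : Type} [Fintype V] [Fintype E] [Fintype C] [Fintype R] (src tgt : E → V)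

/-- the shift of the bits in the groups with signature one -/
def sh (s : C → Bool) : Equiv.Perm (Ps C R) where
  toFun p := ⟨p.g, p.t, xor p.b (s p.g)⟩
  invFun p := ⟨p.g, p.t, xor p.b (s p.g)⟩
  left_inv p := by simp
  right_inv p := by simp

@[simp] theorem sh_g (s : C → Bool) (p : Ps C R) : (sh s p).g = p.g := rfl

theorem sh_sh (s : C → Bool) (p : Ps C R) : sh s (sh s p) = p :=
  (sh s : Equiv.Perm (Ps C R)).left_inv p

theorem sh_symm (s : C → Bool) : (sh s : Equiv.Perm (Ps C R)).symm = sh s := rfl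

/-- the world of a naming of the positions -/
def mk (s : C → Bool) (y : V → Equiv.Perm (Ps C R)) : E → Equiv.Perm (Ps C R) :=
  fun e => y (tgt e) * sh s * (y (src e))⁻¹

theorem mk_apply (s : C → Bool) (y : V → Equiv.Perm (Ps C R)) (e : E) (p : Ps C R) :
    mk src tgt s y e (y (src e) p) = y (tgt e) (sh s p) := by
  simp [mk, Equiv.Perm.mul_apply]

/-- the worlds which agree with the naming outside the hidden groups -/
def VW (s : C → Bool) (y : V → Equiv.Perm (Ps C R)) (H : Finset C) :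
    Set (E → Equiv.Perm (Ps C R)) :=
  {ω | ∀ e, ∀ p : Ps C R, p.g ∉ H → ω e (y (src e) p) = y (tgt e) (sh s p)}

theorem mk_mem (s : C → Bool) (y : V → Equiv.Perm (Ps C R)) (H : Finset C) :
    mk src tgt s y ∈ VW src tgt s y H := fun e p _ => mk_apply src tgt s y e p

theorem VW_mono (s : C → Bool) (y : V → Equiv.Perm (Ps C R)) {H H' : Finset C} (h : H ⊆ H') :
    VW src tgt s y H ⊆ VW src tgt s y H' := fun _ hω e p hp => hω e p fun h' => hp (h h')

/-- the label is at a position of a hidden group -/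
def Hid (y : V → Equiv.Perm (Ps C R)) (H : Finset C) (l : V × Ps C R) : Prop :=
  ((y l.1).symm l.2).g ∈ H

/-- a partial injection for every edge -/
def PI {P : Type} (τ : Finset (E × P × P)) : Prop :=
  ∀ φ ∈ τ, ∀ φ' ∈ τ, φ.1 = φ'.1 → (φ.2.1 = φ'.2.1 ↔ φ.2.2 = φ'.2.2)

/-- the facts can hold in the view -/
def Al (s : C → Bool) (y : V → Equiv.Perm (Ps C R)) (H : Finset C)
    (τ : Finset (E × Ps C R × Ps C R)) : Prop :=
  (∀ φ ∈ τ, (Hid y H (la src φ) ∧ Hid y H (lb tgt φ)) ∨
    (¬ Hid y H (la src φ) ∧ ¬ Hid y H (lb tgt φ) ∧ Holds (mk src tgt s y) φ)) ∧ PI τ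

variable {src tgt} {s : C → Bool} {y : V → Equiv.Perm (Ps C R)} {H : Finset C}
  {τ : Finset (E × Ps C R × Ps C R)}

theorem holds_iff {ω : E → Equiv.Perm (Ps C R)} (hω : ω ∈ VW src tgt s y H)
    {φ : E × Ps C R × Ps C R} (h : ¬ Hid y H (la src φ)) :
    Holds ω φ ↔ Holds (mk src tgt s y) φ := by
  obtain ⟨e, x, z⟩ := φ
  unfold Hid la at h
  simp only at h
  have h1 := hω e _ h
  have h2 := mk_apply src tgt s y e ((y (src e)).symm x)
  rw [Equiv.apply_symm_apply] at h1 h2
  unfold Holds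
  simp only
  rw [h1, h2]

theorem hid_iff {ω : E → Equiv.Perm (Ps C R)} (hω : ω ∈ VW src tgt s y H)
    {φ : E × Ps C R × Ps C R} (hφ : Holds ω φ) :
    Hid y H (la src φ) ↔ Hid y H (lb tgt φ) := by
  obtain ⟨e, x, z⟩ := φ
  unfold Holds at hφ
  simp only at hφ
  unfold Hid la lb
  simp only
  constructor
  · intro h
    by_contra h'
    have h1 := hω e (sh s ((y (tgt e)).symm z)) h'
    rw [sh_sh, Equiv.apply_symm_apply, ← hφ] at h1
    have h3 := (ω e).injective h1
    rw [← h3, Equiv.symm_apply_apply, hφ] at h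
    exact h' h
  · intro h
    by_contra h'
    have h1 := hω e _ h'
    rw [Equiv.apply_symm_apply, hφ] at h1
    rw [h1, Equiv.symm_apply_apply] at h
    exact h' h

theorem al_of_sat {ω : E → Equiv.Perm (Ps C R)} (hω : ω ∈ VW src tgt s y H) (h : Sat ω τ) :
    Al src tgt s y H τ := by
  constructor
  · intro φ hφ
    by_cases h1 : Hid y H (la src φ)
    · exact Or.inl ⟨h1, (hid_iff hω (h φ hφ)).1 h1⟩
    · exact Or.inr ⟨h1, fun h2 => h1 ((hid_iff hω (h φ hφ)).2 h2), (holds_iff hω h1).1 (h φ hφ)⟩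
  · rintro ⟨e, x, z⟩ hφ ⟨e', x', z'⟩ hφ' h1
    have h2 := h _ hφ
    have h3 := h _ hφ'
    unfold Holds at h2 h3
    simp only at h1 h2 h3 ⊢
    subst h1
    rw [← h2, ← h3]
    exact (ω e).injective.eq_iff.symm

/-! ### The greedy exploration -/

/-- a candidate of the greedy process: a certificate `τ ⊇ Q` of the family, possible in the view,
whose new facts avoid the labels of `Q` and `Λ` -/
def Tst (F : Set (Finset (E × Ps C R × Ps C R))) (src tgt : E → V) (s : C → Bool)
    (y : V → Equiv.Perm (Ps C R)) (H : Finset C) (Q : Finset (E × Ps C R × Ps C R))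
    (Λ : Finset (V × Ps C R)) (τ : Finset (E × Ps C R × Ps C R)) : Prop :=
  τ ∈ F ∧ Q ⊆ τ ∧ (∀ φ ∈ τ \ Q, ¬ Meets src tgt φ (labs src tgt Q ∪ Λ)) ∧ Al src tgt s y H τ

/-- the hidden new facts -/
noncomputable def rem (src : E → V) (y : V → Equiv.Perm (Ps C R)) (H : Finset C)
    (Q τ : Finset (E × Ps C R × Ps C R)) : Finset (E × Ps C R × Ps C R) :=
  (τ \ Q).filter fun φ => Hid y H (la src φ)

/-- every possible certificate above `Q` has hidden new facts -/
def NQ (F : Set (Finset (E × Ps C R × Ps C R))) (src tgt : E → V) (s : C → Bool)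
    (y : V → Equiv.Perm (Ps C R)) (H : Finset C) (Q : Finset (E × Ps C R × Ps C R)) : Prop :=
  ∀ τ ∈ F, Q ⊆ τ → Al src tgt s y H τ → (rem src y H Q τ).Nonempty

/-- the labels used in the first `j` steps -/
noncomputable def lam (src tgt : E → V) (y : V → Equiv.Perm (Ps C R)) (H : Finset C)
    (Q : Finset (E × Ps C R × Ps C R)) (t : ℕ → Finset (E × Ps C R × Ps C R)) (j : ℕ) :
    Finset (V × Ps C R) :=
  (range j).biUnion fun i => labs src tgt (rem src y H Q (t i))

/-- the greedy process runs for `n` steps; `rk` orders the sets of facts -/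
def Chain (rk : Finset (E × Ps C R × Ps C R) → ℕ) (F : Set (Finset (E × Ps C R × Ps C R)))
    (src tgt : E → V) (s : C → Bool) (y : V → Equiv.Perm (Ps C R)) (H : Finset C)
    (Q : Finset (E × Ps C R × Ps C R)) (t : ℕ → Finset (E × Ps C R × Ps C R)) (n : ℕ) : Prop :=
  ∀ j < n, Tst F src tgt s y H Q (lam src tgt y H Q t j) (t j) ∧
    ∀ τ, Tst F src tgt s y H Q (lam src tgt y H Q t j) τ → rk (t j) ≤ rk τ

/-- the process is long for some `Q` -/
def Bad (rk : Finset (E × Ps C R × Ps C R) → ℕ) (F : Set (Finset (E × Ps C R × Ps C R)))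
    (src tgt : E → V) (s : C → Bool) (y : V → Equiv.Perm (Ps C R)) (H : Finset C) (ℓ n : ℕ) :
    Prop :=
  ∃ Q : Finset (E × Ps C R × Ps C R), Q.card ≤ ℓ ∧ (∀ l ∈ labs src tgt Q, Hid y H l) ∧
    NQ F src tgt s y H Q ∧ ∃ t, Chain rk F src tgt s y H Q t n

variable {rk : Finset (E × Ps C R × Ps C R) → ℕ} {F : Set (Finset (E × Ps C R × Ps C R))}
  {Q : Finset (E × Ps C R × Ps C R)} {ℓ n : ℕ}

theorem lam_congr {t t' : ℕ → Finset (E × Ps C R × Ps C R)} {j : ℕ} (h : ∀ i < j, t i = t' i) :
    lam src tgt y H Q t j = lam src tgt y H Q t' j := by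
  unfold lam
  refine Finset.biUnion_congr rfl fun i hi => ?_
  rw [h i (mem_range.1 hi)]

theorem card_lam {t : ℕ → Finset (E × Ps C R × Ps C R)} {j : ℕ} (h : ∀ i < j, (t i).card ≤ ℓ) :
    (lam src tgt y H Q t j).card ≤ j * (2 * ℓ) := by
  unfold lam
  refine card_biUnion_le.trans ?_
  refine (sum_le_card_nsmul _ _ (2 * ℓ) fun i hi => ?_).trans (by simp)
  refine (card_labs src tgt _).trans ?_
  have h1 := h i (mem_range.1 hi)
  have h2 : (rem src y H Q (t i)).card ≤ (t i).card :=
    (card_filter_le _ _).trans (card_le_card sdiff_subset)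
  omega

theorem hid_rem (hal : Al src tgt s y H τ) {l : V × Ps C R}
    (hl : l ∈ labs src tgt (rem src y H Q τ)) : Hid y H l := by
  have h1 : ∀ φ ∈ rem src y H Q τ, Hid y H (la src φ) ∧ Hid y H (lb tgt φ) := by
    intro φ hφ
    obtain ⟨h1, h2⟩ := mem_filter.1 hφ
    rcases hal.1 φ (mem_sdiff.1 h1).1 with h3 | h3
    · exact h3
    · exact absurd h2 h3.1
  rcases mem_union.1 hl with h | h
  · obtain ⟨φ, hφ, rfl⟩ := mem_image.1 h
    exact (h1 φ hφ).1
  · obtain ⟨φ, hφ, rfl⟩ := mem_image.1 h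
    exact (h1 φ hφ).2

theorem hid_lam {t : ℕ → Finset (E × Ps C R × Ps C R)} {j : ℕ}
    (h : ∀ i < j, Al src tgt s y H (t i)) {l : V × Ps C R}
    (hl : l ∈ lam src tgt y H Q t j) : Hid y H l := by
  obtain ⟨i, hi, h1⟩ := mem_biUnion.1 hl
  exact hid_rem (h i (mem_range.1 hi)) h1

/-- If the process is not long then it stops with few labels. -/
theorem stop (hF : ∀ τ ∈ F, τ.card ≤ ℓ) (hno : ¬ ∃ t, Chain rk F src tgt s y H Q t n) :
    ∃ Λ : Finset (V × Ps C R), Λ.card ≤ n * (2 * ℓ) ∧ (∀ l ∈ Λ, Hid y H l) ∧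
      ∀ τ, ¬ Tst F src tgt s y H Q Λ τ := by
  by_contra hcon
  push Not at hcon
  have key : ∀ j ≤ n, ∃ t, Chain rk F src tgt s y H Q t j := by
    intro j
    induction j with
    | zero => intro _; exact ⟨fun _ => ∅, fun j hj => absurd hj (Nat.not_lt_zero _)⟩
    | succ j ih =>
      intro hj
      obtain ⟨t, ht⟩ := ih (by omega)
      have h1 : (lam src tgt y H Q t j).card ≤ n * (2 * ℓ) :=
        (card_lam fun i hi => hF _ (ht i hi).1.1).trans (Nat.mul_le_mul_right _ (by omega))
      have h2 := hcon _ h1 fun l hl => hid_lam (fun i hi => (ht i hi).1.2.2.2) hl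
      obtain ⟨m, hm⟩ : ∃ m, m = sInf {m | ∃ τ, Tst F src tgt s y H Q (lam src tgt y H Q t j) τ ∧
        rk τ = m} := ⟨_, rfl⟩
      have h3 : m ∈ {m | ∃ τ, Tst F src tgt s y H Q (lam src tgt y H Q t j) τ ∧ rk τ = m} := by
        rw [hm]
        obtain ⟨τ, hτ⟩ := h2
        exact Nat.sInf_mem ⟨rk τ, τ, hτ, rfl⟩
      obtain ⟨τ, hτ, hrk⟩ := h3
      refine ⟨fun i => if i = j then τ else t i, fun i hi => ?_⟩
      have h4 : lam src tgt y H Q (fun i => if i = j then τ else t i) i =
          lam src tgt y H Q t i := lam_congr fun i' hi' => by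
        have : i' ≠ j := by omega
        simp [this]
      rw [h4]
      by_cases hij : i = j
      · subst hij
        simp only [if_true]
        refine ⟨hτ, fun τ' hτ' => ?_⟩
        rw [hrk, hm]
        exact Nat.sInf_le ⟨τ', hτ', rfl⟩
      · simp only [if_neg hij]
        exact ht i (by omega)
  exact hno (key n le_rfl)

/-- the growth of the number of labels -/
def zt (ℓ n k : ℕ) : ℕ := 2 * k + 2 ^ k * (n * (2 * ℓ))

theorem zt_mono (ℓ n : ℕ) : Monotone (zt ℓ n) := by
  intro a b h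
  unfold zt
  have h1 : 2 ^ a ≤ 2 ^ b := Nat.pow_le_pow_right (by norm_num) h
  have h2 := Nat.mul_le_mul_right (n * (2 * ℓ)) h1
  omega

/-- Exploration: outside the bad event a disjunction of certificates has unambiguous
certificates on the smaller view. -/
theorem explore {Δ : ℕ}
    (hΔ : ∀ v, (univ.filter fun e => src e = v).card + (univ.filter fun e => tgt e = v).card ≤ Δ)
    {f : (E → Equiv.Perm (Ps C R)) → Prop} (hF : ∀ τ ∈ F, τ.card ≤ ℓ)
    (hf : ∀ ω ∈ VW src tgt s y H, f ω ↔ ∃ τ ∈ F, Sat ω τ)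
    (hbad : ¬ Bad rk F src tgt s y H ℓ n) :
    UC (bd Δ (zt ℓ n) (ℓ + 1)) (VW src tgt s y H) f := by
  -- the labels at which the process stops
  have hA : ∀ Q : Finset (E × Ps C R × Ps C R), ∃ Λ : Finset (V × Ps C R),
      Λ.card ≤ n * (2 * ℓ) ∧ (∀ l ∈ Λ, Hid y H l) ∧ (Q.card ≤ ℓ →
        (∀ l ∈ labs src tgt Q, Hid y H l) →
          NQ F src tgt s y H Q → ∀ τ, ¬ Tst F src tgt s y H Q Λ τ) := by
    intro Q
    by_cases h : Q.card ≤ ℓ ∧ (∀ l ∈ labs src tgt Q, Hid y H l) ∧ NQ F src tgt s y H Q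
    · have h1 : ¬ ∃ t, Chain rk F src tgt s y H Q t n := fun ⟨t, ht⟩ =>
        hbad ⟨Q, h.1, h.2.1, h.2.2, t, ht⟩
      obtain ⟨Λ, h2, h3, h4⟩ := stop hF h1
      exact ⟨Λ, h2, h3, fun _ _ _ => h4⟩
    · refine ⟨∅, by simp, fun l hl => absurd hl (notMem_empty _),
        fun h1 h2 h3 => absurd ⟨h1, h2, h3⟩ h⟩
  choose A hA1 hA3 hA2 using hA
  let Z : Finset (E × Ps C R × Ps C R) → Finset (V × Ps C R) := fun κ =>
    labs src tgt κ ∪ κ.powerset.biUnion A
  have hZ : ∀ κ, (Z κ).card ≤ zt ℓ n κ.card := by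
    intro κ
    refine (card_union_le _ _).trans (add_le_add (card_labs src tgt κ) ?_)
    refine card_biUnion_le.trans ?_
    refine (sum_le_card_nsmul _ _ (n * (2 * ℓ)) fun Q _ => ?_).trans (by simp)
    exact hA1 Q
  -- all facts found are hidden
  have hhid : ∀ ω ∈ VW src tgt s y H, ∀ r, ∀ l ∈ labs src tgt (rd src tgt Z ω r), Hid y H l := by
    intro ω hω r
    induction r with
    | zero => intro l hl; simp [rd, labs] at hl
    | succ r ih =>
      have hZh : ∀ l ∈ Z (rd src tgt Z ω r), Hid y H l := by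
        intro l hl
        rcases mem_union.1 hl with h | h
        · exact ih l h
        · obtain ⟨Q, -, h⟩ := mem_biUnion.1 h
          exact hA3 Q l h
      have h1 : ∀ φ ∈ rd src tgt Z ω (r + 1), Hid y H (la src φ) ∧ Hid y H (lb tgt φ) := by
        intro φ hφ
        rw [rd, mem_union, mem_filter] at hφ
        rcases hφ with h | ⟨-, h2, h3⟩
        · exact ⟨ih _ (mem_union_left _ (mem_image_of_mem _ h)),
            ih _ (mem_union_right _ (mem_image_of_mem _ h))⟩
        · have h4 := hid_iff hω h2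
          rcases h3 with h3 | h3
          · exact ⟨hZh _ h3, h4.1 (hZh _ h3)⟩
          · exact ⟨h4.2 (hZh _ h3), hZh _ h3⟩
      intro l hl
      rcases mem_union.1 hl with h | h
      · obtain ⟨φ, hφ, rfl⟩ := mem_image.1 h
        exact (h1 φ hφ).1
      · obtain ⟨φ, hφ, rfl⟩ := mem_image.1 h
        exact (h1 φ hφ).2
  -- the value is determined by the facts found
  have hval : ∀ ω ∈ VW src tgt s y H, f ω ↔ ∃ Q ⊆ rd src tgt Z ω (ℓ + 1),
      ¬ NQ F src tgt s y H Q := by
    intro ω hω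
    constructor
    · intro hfω
      obtain ⟨τ, hτ, hsat⟩ := (hf ω hω).1 hfω
      by_contra hcon
      push Not at hcon
      have key : ∀ r ≤ ℓ + 1, r ≤ (τ ∩ rd src tgt Z ω r).card := by
        intro r
        induction r with
        | zero => intro _; exact Nat.zero_le _
        | succ r ih =>
          intro hr
          have h1 := ih (by omega)
          have h2 : NQ F src tgt s y H (τ ∩ rd src tgt Z ω r) :=
            hcon _ (inter_subset_right.trans (rd_mono ω (by omega)))
          have h3 := hA2 (τ ∩ rd src tgt Z ω r)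
            ((card_le_card inter_subset_left).trans (hF τ hτ))
            (fun l hl => hhid ω hω r l (by
              rcases mem_union.1 hl with h | h
              · obtain ⟨φ, hφ, rfl⟩ := mem_image.1 h
                exact mem_union_left _ (mem_image_of_mem _ (mem_of_mem_inter_right hφ))
              · obtain ⟨φ, hφ, rfl⟩ := mem_image.1 h
                exact mem_union_right _ (mem_image_of_mem _ (mem_of_mem_inter_right hφ)))) h2 τ
          have h4 : ∃ φ ∈ τ \ (τ ∩ rd src tgt Z ω r), Meets src tgt φ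
              (labs src tgt (τ ∩ rd src tgt Z ω r) ∪ A (τ ∩ rd src tgt Z ω r)) := by
            by_contra h
            push Not at h
            exact h3 ⟨hτ, inter_subset_left, h, al_of_sat hω hsat⟩
          obtain ⟨φ, hφ, hm⟩ := h4
          obtain ⟨hφ1, hφ2⟩ := mem_sdiff.1 hφ
          have hsub : labs src tgt (τ ∩ rd src tgt Z ω r) ∪ A (τ ∩ rd src tgt Z ω r) ⊆
              Z (rd src tgt Z ω r) := by
            refine union_subset_union ?_ ?_
            · exact union_subset_union (image_subset_image inter_subset_right)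
                (image_subset_image inter_subset_right)
            · exact subset_biUnion_of_mem A (mem_powerset.2 inter_subset_right)
          have hφ3 : φ ∈ rd src tgt Z ω (r + 1) := by
            rw [rd, mem_union, mem_filter]
            refine Or.inr ⟨mem_univ _, hsat φ hφ1, ?_⟩
            rcases hm with h | h
            · exact Or.inl (hsub h)
            · exact Or.inr (hsub h)
          have h5 : insert φ (τ ∩ rd src tgt Z ω r) ⊆ τ ∩ rd src tgt Z ω (r + 1) := by
            rw [insert_subset_iff]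
            exact ⟨mem_inter.2 ⟨hφ1, hφ3⟩,
              inter_subset_inter_left (rd_mono ω (Nat.le_succ r))⟩
          have h6 := card_le_card h5
          rw [card_insert_of_notMem hφ2] at h6
          omega
      have h5 := key (ℓ + 1) le_rfl
      have h6 : (τ ∩ rd src tgt Z ω (ℓ + 1)).card ≤ τ.card := card_le_card inter_subset_left
      have h7 := hF τ hτ
      omega
    · rintro ⟨Q, hQ, hn⟩
      unfold NQ at hn
      push Not at hn
      obtain ⟨τ, hτ, hQτ, hal, hrem⟩ := hn
      refine (hf ω hω).2 ⟨τ, hτ, fun φ hφ => ?_⟩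
      by_cases h : φ ∈ Q
      · exact rd_sat ω _ φ (hQ h)
      · have h1 : ¬ Hid y H (la src φ) := by
          intro h1
          have h2 : φ ∈ rem src y H Q τ := mem_filter.2 ⟨mem_sdiff.2 ⟨hφ, h⟩, h1⟩
          rw [hrem] at h2
          exact absurd h2 (notMem_empty _)
        rcases hal.1 φ hφ with h2 | h2
        · exact absurd h2.1 h1
        · exact (holds_iff hω h1).2 h2.2.2
  refine ⟨fun ω => rd src tgt Z ω (ℓ + 1), fun ω hω => ⟨rd_sat ω _,
    card_rd hΔ (zt_mono ℓ n) hZ ω _, fun ω' hω' h => ?_⟩⟩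
  have h1 := rd_uniq ω ω' (ℓ + 1) h
  refine ⟨h1, ?_⟩
  rw [hval ω' hω', hval ω hω, h1]

end views

end Pool.Agent.J4H64.VC
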