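import Pool.Agent.J4H64.VC.Place

set_option autoImplicit false
set_option linter.unusedSectionVars false

/-!
The number of namings for which the greedy exploration is long.
-/

namespace Pool.Agent.J4H64.VC

open Finset
open scoped Classical

variable {V E C R : Type} [Fintype V] [Fintype E] [Fintype C] [Fintype R] {src tgt : E → V}

section congr

variable {s : C → Bool} {y g : V → Equiv.Perm (Ps C R)} {H : Finset C}
  {rk : Finset (E × Ps C R × Ps C R) → ℕ} {F : Set (Finset (E × Ps C R × Ps C R))}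

theorem mul_symm_apply (v : V) (x : Ps C R) :
    ((y * g) v).symm x = (g v).symm ((y v).symm x) := rfl

theorem hid_supp (hg : Supp H g) (l : V × Ps C R) : Hid (y * g) H l ↔ Hid y H l := by
  unfold Hid
  rw [mul_symm_apply]
  constructor
  · intro h
    have h1 := hg.mem l.1 h
    rwa [Equiv.apply_symm_apply] at h1
  · intro h
    by_contra h'
    have h1 := hg l.1 _ h'
    rw [Equiv.apply_symm_apply] at h1
    rw [← h1] at h'
    exact h' h

theorem VW_supp (hg : Supp H g) : VW src tgt s (y * g) H = VW src tgt s y H := by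
  ext ω
  unfold VW
  rw [Set.mem_ofPred_eq, Set.mem_ofPred_eq]
  refine forall_congr' fun e => forall_congr' fun p => ?_
  constructor
  · intro h hp
    have h1 := h hp
    rw [Pi.mul_apply, Pi.mul_apply, Equiv.Perm.mul_apply, Equiv.Perm.mul_apply, hg _ p hp,
      hg _ (sh s p) (by rwa [sh_g])] at h1
    exact h1
  · intro h hp
    rw [Pi.mul_apply, Pi.mul_apply, Equiv.Perm.mul_apply, Equiv.Perm.mul_apply, hg _ p hp,
      hg _ (sh s p) (by rwa [sh_g])]
    exact h hp

theorem al_supp (hg : Supp H g) (τ : Finset (E × Ps C R × Ps C R)) :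
    Al src tgt s (y * g) H τ ↔ Al src tgt s y H τ := by
  have hω : mk src tgt s (y * g) ∈ VW src tgt s y H := by
    rw [← VW_supp hg]
    exact mk_mem src tgt s _ H
  unfold Al
  refine and_congr_left' (forall_congr' fun φ => forall_congr' fun _ => ?_)
  rw [hid_supp hg, hid_supp hg]
  refine or_congr_right (and_congr_right fun h1 => and_congr_right fun _ => ?_)
  exact holds_iff hω h1

theorem rem_supp (hg : Supp H g) (Q τ : Finset (E × Ps C R × Ps C R)) :
    rem src (y * g) H Q τ = rem src y H Q τ := by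
  unfold rem
  exact filter_congr fun φ _ => hid_supp hg _

theorem lam_supp (hg : Supp H g) (Q : Finset (E × Ps C R × Ps C R))
    (t : ℕ → Finset (E × Ps C R × Ps C R)) (j : ℕ) :
    lam src tgt (y * g) H Q t j = lam src tgt y H Q t j := by
  unfold lam
  exact biUnion_congr rfl fun i _ => by rw [rem_supp hg]

theorem tst_supp (hg : Supp H g) (Q : Finset (E × Ps C R × Ps C R)) (Λ : Finset (V × Ps C R))
    (τ : Finset (E × Ps C R × Ps C R)) :
    Tst F src tgt s (y * g) H Q Λ τ ↔ Tst F src tgt s y H Q Λ τ := by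
  unfold Tst
  rw [al_supp hg]

theorem nq_supp (hg : Supp H g) (Q : Finset (E × Ps C R × Ps C R)) :
    NQ F src tgt s (y * g) H Q ↔ NQ F src tgt s y H Q := by
  unfold NQ
  refine forall_congr' fun τ => forall_congr' fun _ => forall_congr' fun _ => ?_
  rw [al_supp hg, rem_supp hg]

theorem chain_supp (hg : Supp H g) (Q : Finset (E × Ps C R × Ps C R))
    (t : ℕ → Finset (E × Ps C R × Ps C R)) (n : ℕ) :
    Chain rk F src tgt s (y * g) H Q t n ↔ Chain rk F src tgt s y H Q t n := by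
  unfold Chain
  refine forall_congr' fun j => forall_congr' fun _ => ?_
  rw [lam_supp hg]
  refine and_congr (tst_supp hg _ _ _) (forall_congr' fun τ => ?_)
  rw [tst_supp hg]

end congr

/-- a naming for which the process is long and the facts are placed well -/
def Good (rk : Finset (E × Ps C R × Ps C R) → ℕ) (F : Set (Finset (E × Ps C R × Ps C R)))
    (src tgt : E → V) (s : C → Bool) (H : Finset C) (ℓ n : ℕ) (c₀ : C) (D : ℕ → C)
    (z : V → Equiv.Perm (Ps C R)) (Q : Finset (E × Ps C R × Ps C R))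
    (t : ℕ → Finset (E × Ps C R × Ps C R)) : Prop :=
  Q.card ≤ ℓ ∧ (∀ l ∈ labs src tgt Q, ((z l.1).symm l.2).g = c₀) ∧
    NQ F src tgt s z H Q ∧ Chain rk F src tgt s z H Q t n ∧
    ∀ j < n, (∀ l ∈ labs src tgt (rem src z H Q (t j)), ((z l.1).symm l.2).g = D j) ∧
      Sat (mk src tgt s z) (rem src z H Q (t j))

section place

variable {rk : Finset (E × Ps C R × Ps C R) → ℕ} {F : Set (Finset (E × Ps C R × Ps C R))}
  {s : C → Bool} {H : Finset C} {ℓ n : ℕ} {c₀ : C} {D : ℕ → C}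
  {y : V → Equiv.Perm (Ps C R)} {Q : Finset (E × Ps C R × Ps C R)}
  {t : ℕ → Finset (E × Ps C R × Ps C R)}

theorem la_mem_labs {φ : E × Ps C R × Ps C R} {κ : Finset (E × Ps C R × Ps C R)} (h : φ ∈ κ) :
    la src φ ∈ labs src tgt κ := mem_union_left _ (mem_image_of_mem _ h)

theorem lb_mem_labs {φ : E × Ps C R × Ps C R} {κ : Finset (E × Ps C R × Ps C R)} (h : φ ∈ κ) :
    lb tgt φ ∈ labs src tgt κ := mem_union_right _ (mem_image_of_mem _ h)

/-- Rearranging a bad naming gives a well placed one. -/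
theorem exists_target [Nonempty R] {g₀ : ℕ} (hT : Tree src tgt g₀) (hℓg : ℓ ≤ g₀)
    (hR : 2 * ℓ ≤ Fintype.card R) (hF : ∀ τ ∈ F, τ.card ≤ ℓ) (hc₀ : c₀ ∈ H)
    (hD : ∀ j < n, D j ∈ H ∧ D j ≠ c₀) (hDi : ∀ i < n, ∀ j < n, D i = D j → i = j)
    (hQ : Q.card ≤ ℓ) (hQh : ∀ l ∈ labs src tgt Q, Hid y H l) (hN : NQ F src tgt s y H Q)
    (hch : Chain rk F src tgt s y H Q t n) :
    ∃ (L : Finset (V × Ps C R)) (T : V × Ps C R → Ps C R), L.card ≤ 2 * ℓ + n * (2 * ℓ) ∧
      (∀ l ∈ L, Hid y H l) ∧ (∀ l ∈ L, (T l).g ∈ H) ∧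
      (∀ l ∈ L, ∀ l' ∈ L, l.1 = l'.1 → T l = T l' → l = l') ∧
      ∀ g ∈ Gd H y T L, Good rk F src tgt s H ℓ n c₀ D (y * g) Q t := by
  -- the hidden facts of step `j`
  let Rj : ℕ → Finset (E × Ps C R × Ps C R) := fun j => rem src y H Q (t j)
  have hRsub : ∀ j, Rj j ⊆ t j := fun j => (filter_subset _ _).trans sdiff_subset
  have hRc : ∀ j < n, (Rj j).card ≤ ℓ := fun j hj =>
    (card_le_card (hRsub j)).trans (hF _ (hch j hj).1.1)
  have hPI : ∀ j < n, PI (Rj j) := fun j hj φ hφ φ' hφ' =>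
    (hch j hj).1.2.2.2.2 φ (hRsub j hφ) φ' (hRsub j hφ')
  have htt : ∀ j, ∃ tt : V × Ps C R → R × Bool, j < n →
      (∀ l ∈ labs src tgt (Rj j), ∀ l' ∈ labs src tgt (Rj j), l.1 = l'.1 → tt l = tt l' → l = l') ∧
      ∀ φ ∈ Rj j, tt (lb tgt φ) = ((tt (la src φ)).1, xor (tt (la src φ)).2 (s (D j))) := by
    intro j
    by_cases hj : j < n
    · obtain ⟨tt, h1, h2⟩ := exists_place (R := R) hT (hPI j hj) ((hRc j hj).trans hℓg)
        ((Nat.mul_le_mul_left 2 (hRc j hj)).trans hR) (s (D j))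
      exact ⟨tt, fun _ => ⟨h1, h2⟩⟩
    · exact ⟨fun _ => (Classical.arbitrary R, false), fun h => absurd h hj⟩
  choose tt htt using htt
  -- the slots of the labels of `Q`
  let X : Finset (Ps C R) := (labs src tgt Q).image Prod.snd
  have hX : X.card ≤ Fintype.card R :=
    card_image_le.trans ((card_labs src tgt Q).trans ((Nat.mul_le_mul_left 2 hQ).trans hR))
  obtain ⟨sl⟩ : Nonempty (X ↪ R) := Function.Embedding.nonempty_of_card_le (by simpa using hX)
  -- disjointness
  have hRQ : ∀ j < n, ∀ l ∈ labs src tgt (Rj j), l ∉ labs src tgt Q := by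
    intro j hj l hl hlQ
    have h1 := (hch j hj).1.2.2.1
    rcases mem_union.1 hl with h | h
    · obtain ⟨φ, hφ, rfl⟩ := mem_image.1 h
      exact h1 φ (mem_filter.1 hφ).1 (Or.inl (mem_union_left _ hlQ))
    · obtain ⟨φ, hφ, rfl⟩ := mem_image.1 h
      exact h1 φ (mem_filter.1 hφ).1 (Or.inr (mem_union_left _ hlQ))
  have hlt : ∀ i j, i < j → j < n → ∀ l, l ∈ labs src tgt (Rj i) → l ∉ labs src tgt (Rj j) := by
    intro i j hij hj l hli hlj
    have h1 := (hch j hj).1.2.2.1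
    have h2 : l ∈ lam src tgt y H Q t j := mem_biUnion.2 ⟨i, mem_range.2 hij, hli⟩
    rcases mem_union.1 hlj with h | h
    · obtain ⟨φ, hφ, rfl⟩ := mem_image.1 h
      exact h1 φ (mem_filter.1 hφ).1 (Or.inl (mem_union_right _ h2))
    · obtain ⟨φ, hφ, rfl⟩ := mem_image.1 h
      exact h1 φ (mem_filter.1 hφ).1 (Or.inr (mem_union_right _ h2))
  have hdis : ∀ i < n, ∀ j < n, ∀ l, l ∈ labs src tgt (Rj i) → l ∈ labs src tgt (Rj j) → i = j := by
    intro i hi j hj l h1 h2
    rcases lt_trichotomy i j with h | h | h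
    · exact absurd h2 (hlt i j h hj l h1)
    · exact h
    · exact absurd h1 (hlt j i h hi l h2)
  -- the targets
  let T : V × Ps C R → Ps C R := fun l =>
    if h : l ∈ labs src tgt Q then ⟨c₀, sl ⟨l.2, mem_image_of_mem _ h⟩, false⟩ else
      if h : ∃ j < n, l ∈ labs src tgt (Rj j) then ⟨D h.choose, (tt h.choose l).1, (tt h.choose l).2⟩
      else ⟨c₀, Classical.arbitrary R, false⟩
  have hTQ : ∀ l (h : l ∈ labs src tgt Q), T l = ⟨c₀, sl ⟨l.2, mem_image_of_mem _ h⟩, false⟩ :=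
    fun l h => dif_pos h
  have hTR : ∀ j < n, ∀ l ∈ labs src tgt (Rj j), T l = ⟨D j, (tt j l).1, (tt j l).2⟩ := by
    intro j hj l hl
    have h1 : ∃ j < n, l ∈ labs src tgt (Rj j) := ⟨j, hj, hl⟩
    have h2 : T l = ⟨D h1.choose, (tt h1.choose l).1, (tt h1.choose l).2⟩ := by
      have h3 := hRQ j hj l hl
      simp only [T, dif_neg h3, dif_pos h1]
    have h3 : h1.choose = j :=
      hdis _ h1.choose_spec.1 _ hj l h1.choose_spec.2 hl
    rw [h2, h3]
  let L : Finset (V × Ps C R) := labs src tgt Q ∪ lam src tgt y H Q t n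
  have hLc : ∀ l ∈ L, l ∈ labs src tgt Q ∨ ∃ j < n, l ∈ labs src tgt (Rj j) := by
    intro l hl
    rcases mem_union.1 hl with h | h
    · exact Or.inl h
    · obtain ⟨j, hj, h⟩ := mem_biUnion.1 h
      exact Or.inr ⟨j, mem_range.1 hj, h⟩
  refine ⟨L, T, ?_, ?_, ?_, ?_, ?_⟩
  · refine (card_union_le _ _).trans (add_le_add ?_ (card_lam fun i hi => hF _ (hch i hi).1.1))
    exact (card_labs src tgt Q).trans (Nat.mul_le_mul_left 2 hQ)
  · intro l hl
    rcases mem_union.1 hl with h | h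
    · exact hQh l h
    · exact hid_lam (fun i hi => (hch i hi).1.2.2.2) h
  · intro l hl
    rcases hLc l hl with h | ⟨j, hj, h⟩
    · rw [hTQ l h]; exact hc₀
    · rw [hTR j hj l h]; exact (hD j hj).1
  · intro l hl l' hl' h1 h2
    rcases hLc l hl with h | ⟨j, hj, h⟩ <;> rcases hLc l' hl' with h' | ⟨j', hj', h'⟩
    · rw [hTQ l h, hTQ l' h'] at h2
      have h3 := congrArg Ps.t h2
      simp only at h3
      have h4 := sl.injective h3
      rw [Subtype.mk.injEq] at h4
      exact Prod.ext h1 h4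
    · rw [hTQ l h, hTR j' hj' l' h'] at h2
      exact absurd (congrArg Ps.g h2).symm (hD j' hj').2
    · rw [hTR j hj l h, hTQ l' h'] at h2
      exact absurd (congrArg Ps.g h2) (hD j hj).2
    · rw [hTR j hj l h, hTR j' hj' l' h'] at h2
      have h3 := hDi j hj j' hj' (congrArg Ps.g h2)
      subst h3
      refine (htt j hj).1 l h l' h' h1 ?_
      exact Prod.ext (congrArg Ps.t h2) (congrArg Ps.b h2)
  · intro g hg
    obtain ⟨-, hsupp, hgl⟩ := mem_filter.1 hg
    have hpos : ∀ l ∈ L, ((y * g) l.1).symm l.2 = T l := by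
      intro l hl
      rw [Equiv.symm_apply_eq, Pi.mul_apply, Equiv.Perm.mul_apply]
      exact (hgl l hl).symm
    have hLQ : ∀ l ∈ labs src tgt Q, l ∈ L := fun l hl => mem_union_left _ hl
    have hLR : ∀ j < n, ∀ l ∈ labs src tgt (Rj j), l ∈ L := fun j hj l hl =>
      mem_union_right _ (mem_biUnion.2 ⟨j, mem_range.2 hj, hl⟩)
    refine ⟨hQ, ?_, (nq_supp hsupp Q).2 hN, (chain_supp hsupp Q t n).2 hch, ?_⟩
    · intro l hl
      rw [hpos l (hLQ l hl), hTQ l hl]
    · intro j hj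
      rw [rem_supp hsupp]
      refine ⟨?_, ?_⟩
      · intro l hl
        rw [hpos l (hLR j hj l hl), hTR j hj l hl]
      · intro φ hφ
        have h1 := la_mem_labs (src := src) (tgt := tgt) hφ
        have h2 := lb_mem_labs (src := src) (tgt := tgt) hφ
        have h3 := hpos _ (hLR j hj _ h1)
        have h4 := hpos _ (hLR j hj _ h2)
        rw [hTR j hj _ h1] at h3
        rw [hTR j hj _ h2, (htt j hj).2 φ hφ] at h4
        unfold Holds
        have h5 := mk_apply src tgt s (y * g) φ.1 (((y * g) (la src φ).1).symm (la src φ).2)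
        have h6 : (y * g) (src φ.1) (((y * g) (la src φ).1).symm (la src φ).2) = φ.2.1 :=
          Equiv.apply_symm_apply _ _
        rw [h6, h3] at h5
        rw [h5]
        rw [Equiv.symm_apply_eq] at h4
        exact h4.symm

end place

section count

variable {rk : Finset (E × Ps C R × Ps C R) → ℕ}
  {F : (V → Equiv.Perm (Ps C R)) → Set (Finset (E × Ps C R × Ps C R))}
  {s : C → Bool} {H J : Finset C} {ℓ n : ℕ} {c₀ : C} {D : ℕ → C}

/-- The bad namings are not much more numerous than the good ones. -/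
theorem bad_le_good [Nonempty R] {g₀ : ℕ} (hT : Tree src tgt g₀) (hℓg : ℓ ≤ g₀)
    (hR : 2 * ℓ ≤ Fintype.card R) (hF : ∀ y, ∀ τ ∈ F y, τ.card ≤ ℓ)
    (hFJ : ∀ y g, Supp J g → F (y * g) = F y) (hHJ : H ⊆ J) (hc₀ : c₀ ∈ H)
    (hD : ∀ j < n, D j ∈ H ∧ D j ≠ c₀) (hDi : ∀ i < n, ∀ j < n, D i = D j → i = j) :
    (univ.filter fun y => Bad rk (F y) src tgt s y H ℓ n).card ≤
      (pos H : Finset (Ps C R)).card ^ (2 * ℓ + n * (2 * ℓ)) *
      (univ.filter fun z => ∃ Q t, Good rk (F z) src tgt s H ℓ n c₀ D z Q t).card := by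
  set BS := univ.filter fun y => Bad rk (F y) src tgt s y H ℓ n
  set GS := univ.filter fun z => ∃ Q t, Good rk (F z) src tgt s H ℓ n c₀ D z Q t
  set U := univ.filter fun g : V → Equiv.Perm (Ps C R) => Supp H g
  set m := 2 * ℓ + n * (2 * ℓ)
  have hp : 1 ≤ (pos H : Finset (Ps C R)).card :=
    card_pos.2 ⟨⟨c₀, Classical.arbitrary R, false⟩, mem_filter.2 ⟨mem_univ _, hc₀⟩⟩
  have hU : 0 < U.card := card_pos.2 ⟨1, mem_filter.2 ⟨mem_univ _, fun _ _ _ => rfl⟩⟩
  have h1 : ∀ y ∈ BS, U.card ≤ (pos H : Finset (Ps C R)).card ^ m *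
      (U.filter fun g => y * g ∈ GS).card := by
    intro y hy
    obtain ⟨Q, hQ, hQh, hN, t, hch⟩ := (mem_filter.1 hy).2
    obtain ⟨L, T, hL1, hL2, hL3, hL4, hL5⟩ :=
      exists_target hT hℓg hR (hF y) hc₀ hD hDi hQ hQh hN hch
    refine (card_Gd L hL2 hL3 hL4).trans (Nat.mul_le_mul (Nat.pow_le_pow_right hp hL1)
      (card_le_card fun g hg => ?_))
    have hs := (mem_filter.1 hg).2.1
    refine mem_filter.2 ⟨mem_filter.2 ⟨mem_univ _, hs⟩, mem_filter.2 ⟨mem_univ _, Q, t, ?_⟩⟩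
    rw [hFJ y g fun v p hp => hs v p fun h => hp (hHJ h)]
    exact hL5 g hg
  have h2 : BS.card * U.card ≤ (pos H : Finset (Ps C R)).card ^ m *
      ∑ y ∈ BS, (U.filter fun g => y * g ∈ GS).card := by
    rw [mul_sum, ← smul_eq_mul, ← sum_const]
    exact sum_le_sum h1
  have h3 : ∑ y ∈ BS, (U.filter fun g => y * g ∈ GS).card ≤ GS.card * U.card := by
    rw [← card_sigma, ← card_product]
    refine card_le_card_of_injOn (fun p => (p.1 * p.2, p.2)) ?_ ?_
    · rintro ⟨y, g⟩ h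
      have h := mem_sigma.1 (mem_coe.1 h)
      have h' := mem_filter.1 h.2
      exact mem_coe.2 (mem_product.2 ⟨h'.2, h'.1⟩)
    · rintro ⟨y, g⟩ _ ⟨y', g'⟩ _ h
      simp only [Prod.mk.injEq] at h
      obtain ⟨h4, rfl⟩ := h
      have h5 := mul_right_cancel h4
      subst h5
      rfl
  have h4 := h2.trans (Nat.mul_le_mul_left _ h3)
  rw [← mul_assoc] at h4
  exact Nat.le_of_mul_le_mul_right h4 hU

end count

end Pool.Agent.J4H64.VC
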