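import Pool.Agent.J4H64.VC.Swap

set_option autoImplicit false
set_option linter.unusedSectionVars false

/-!
Unambiguous certificates do not see the signature of a hidden group.
-/

namespace Pool.Agent.J4H64.VC

open Finset
open scoped Classical

variable {V E C R : Type} [Fintype V] [Fintype E] [Fintype C] [Fintype R] {src tgt : E → V}
  {s s' : C → Bool} {H : Finset C} {c₀ : C} {y : V → Equiv.Perm (Ps C R)}

theorem VW_sig (hs : ∀ c, c ≠ c₀ → s c = s' c) (hc₀ : c₀ ∈ H) :
    VW src tgt s y H = VW src tgt s' y H := by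
  ext ω
  unfold VW
  rw [Set.mem_ofPred_eq, Set.mem_ofPred_eq]
  refine forall_congr' fun e => forall_congr' fun p => forall_congr' fun hp => ?_
  have h1 : (sh s p : Ps C R) = sh s' p := by
    have h2 : p.g ≠ c₀ := fun h => hp (h ▸ hc₀)
    show (⟨p.g, p.t, xor p.b (s p.g)⟩ : Ps C R) = ⟨p.g, p.t, xor p.b (s' p.g)⟩
    rw [hs _ h2]
  rw [h1]

theorem sh_mul (s s' : C → Bool) :
    (sh s * sh s' : Equiv.Perm (Ps C R)) = sh fun c => xor (s c) (s' c) := by
  ext p
  · rfl
  · rfl
  · show xor (xor p.b (s' p.g)) (s p.g) = xor p.b (xor (s p.g) (s' p.g))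
    cases p.b <;> cases s p.g <;> cases s' p.g <;> rfl

/-- Flipping the signature of a hidden group does not change the number of rearrangements
satisfying few facts. -/
theorem gauge {g₀ : ℕ} (hT : Tree src tgt g₀) (hs : ∀ c, c ≠ c₀ → s c = s' c)
    (hs₀ : s c₀ = !s' c₀) (hc₀ : c₀ ∈ H) (κ : Finset (E × Ps C R × Ps C R)) (hκ : κ.card ≤ g₀) :
    (univ.filter fun g => Supp H g ∧ Sat (mk src tgt s (y * g)) κ).card ≤
    (univ.filter fun g => Supp H g ∧ Sat (mk src tgt s' (y * g)) κ).card := by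
  obtain ⟨b, hb⟩ := exists_bits hT (κ.image Prod.fst) (card_image_le.trans hκ) true
  let fl : Equiv.Perm (Ps C R) := sh fun c => decide (c = c₀)
  let θ : V → Equiv.Perm (Ps C R) := fun v => if b v then fl else 1
  have hfl : fl * fl = 1 := by
    simp only [fl]
    rw [sh_mul]
    ext p
    · rfl
    · rfl
    · show xor p.b (xor (decide (p.g = c₀)) (decide (p.g = c₀))) = p.b
      simp
  have hinv : fl⁻¹ = fl := inv_eq_of_mul_eq_one_left hfl
  have h1 : fl * sh s' = sh s := by
    simp only [fl]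
    rw [sh_mul]
    congr 1
    funext c
    by_cases h : c = c₀
    · subst h; simp [hs₀]
    · simp [h, hs c h]
  have h2 : sh s' * fl = sh s := by
    simp only [fl]
    rw [sh_mul]
    congr 1
    funext c
    by_cases h : c = c₀
    · subst h; simp [hs₀]
    · simp [h, hs c h]
  have hflH : ∀ p : Ps C R, p.g ∉ H → fl p = p := by
    intro p hp
    have h3 : p.g ≠ c₀ := fun h => hp (h ▸ hc₀)
    show (⟨p.g, p.t, xor p.b (decide (p.g = c₀))⟩ : Ps C R) = p
    simp [h3]
  have hθH : ∀ v, ∀ p : Ps C R, p.g ∉ H → θ v p = p := by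
    intro v p hp
    by_cases hbv : b v = true
    · simp only [θ, hbv, if_true]; exact hflH p hp
    · simp only [θ, hbv]; rfl
  have hedge : ∀ e ∈ κ.image Prod.fst, ∀ g : V → Equiv.Perm (Ps C R),
      mk src tgt s' (y * (g * θ)) e = mk src tgt s (y * g) e := by
    intro e he g
    have h3 : θ (tgt e) * sh s' * (θ (src e))⁻¹ = sh s := by
      have h4 := hb e he
      simp only [θ, h4]
      cases b (src e)
      · simp [h1]
      · simp [hinv, h2]
    unfold mk
    simp only [Pi.mul_apply, mul_inv_rev]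
    calc y (tgt e) * (g (tgt e) * θ (tgt e)) * sh s' * ((θ (src e))⁻¹ * (g (src e))⁻¹ *
          (y (src e))⁻¹)
        = y (tgt e) * g (tgt e) * (θ (tgt e) * sh s' * (θ (src e))⁻¹) * ((g (src e))⁻¹ *
          (y (src e))⁻¹) := by simp only [mul_assoc]
      _ = _ := by rw [h3]
  refine card_le_card_of_injOn (fun g => g * θ) ?_ (fun g _ g' _ h => mul_right_cancel h)
  intro g hg
  obtain ⟨-, h3, h4⟩ := mem_filter.1 (mem_coe.1 hg)
  refine mem_coe.2 (mem_filter.2 ⟨mem_univ _, ?_, ?_⟩)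
  · intro v p hp
    show g v (θ v p) = p
    rw [hθH v p hp, h3 v p hp]
  · intro φ hφ
    show mk src tgt s' (y * (g * θ)) φ.1 φ.2.1 = φ.2.2
    rw [hedge φ.1 (mem_image_of_mem _ hφ)]
    exact h4 φ hφ

/-- Functions with unambiguous certificates do not see the signature of a hidden group. -/
theorem uc_inv {g₀ T : ℕ} (hT : Tree src tgt g₀) (hTg : T ≤ g₀) (hs : ∀ c, c ≠ c₀ → s c = s' c)
    (hs₀ : s c₀ = !s' c₀) (hc₀ : c₀ ∈ H) {f : (E → Equiv.Perm (Ps C R)) → Prop}
    (h : UC T (VW src tgt s y H) f) :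
    (univ.filter fun g => Supp H g ∧ f (mk src tgt s (y * g))).card ≤
    (univ.filter fun g => Supp H g ∧ f (mk src tgt s' (y * g))).card := by
  obtain ⟨c, hc⟩ := h
  let K : Finset (Finset (E × Ps C R × Ps C R)) :=
    univ.filter fun κ => ∃ ω ∈ VW src tgt s y H, κ = c ω ∧ f ω
  have hmem : ∀ g, Supp H g → mk src tgt s (y * g) ∈ VW src tgt s y H := by
    intro g hg
    rw [← VW_supp hg]
    exact mk_mem src tgt s _ H
  have hmem' : ∀ g, Supp H g → mk src tgt s' (y * g) ∈ VW src tgt s y H := by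
    intro g hg
    rw [VW_sig hs hc₀, ← VW_supp hg]
    exact mk_mem src tgt s' _ H
  -- the fibres
  have hfib : ∀ ω ∈ VW src tgt s y H, ∀ κ ∈ K, (f ω ∧ c ω = κ) ↔ Sat ω κ := by
    intro ω hω κ hκ
    obtain ⟨ω₁, h1, rfl, h2⟩ := (mem_filter.1 hκ).2
    constructor
    · rintro ⟨-, h3⟩
      rw [← h3]
      exact (hc ω hω).1
    · intro h3
      obtain ⟨h4, h5⟩ := (hc ω₁ h1).2.2 ω hω h3
      exact ⟨h5.2 h2, h4⟩
  have hcount : ∀ σ : C → Bool, (∀ g, Supp H g → mk src tgt σ (y * g) ∈ VW src tgt s y H) →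
      (univ.filter fun g => Supp H g ∧ f (mk src tgt σ (y * g))).card =
      ∑ κ ∈ K, (univ.filter fun g => Supp H g ∧ Sat (mk src tgt σ (y * g)) κ).card := by
    intro σ hσ
    rw [card_eq_sum_card_fiberwise (f := fun g => c (mk src tgt σ (y * g))) (t := K)]
    · refine sum_congr rfl fun κ hκ => ?_
      congr 1
      ext g
      rw [mem_filter, mem_filter, mem_filter]
      constructor
      · rintro ⟨⟨-, h1, h2⟩, h3⟩
        exact ⟨mem_univ _, h1, (hfib _ (hσ g h1) κ hκ).1 ⟨h2, h3⟩⟩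
      · rintro ⟨-, h1, h2⟩
        have h3 := (hfib _ (hσ g h1) κ hκ).2 h2
        exact ⟨⟨mem_univ _, h1, h3.1⟩, h3.2⟩
    · intro g hg
      obtain ⟨-, h1, h2⟩ := mem_filter.1 (mem_coe.1 hg)
      exact mem_coe.2 (mem_filter.2 ⟨mem_univ _, _, hσ g h1, rfl, h2⟩)
  rw [hcount s hmem, hcount s' hmem']
  refine sum_le_sum fun κ hκ => gauge hT hs hs₀ hc₀ κ ?_
  obtain ⟨ω₁, h1, rfl, h2⟩ := (mem_filter.1 hκ).2
  exact (hc ω₁ h1).2.1.trans hTg

/-- One step of the hybrid argument. -/
theorem hyb_step {g₀ T : ℕ} (hT : Tree src tgt g₀) (hTg : T ≤ g₀)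
    (hs : ∀ c, c ≠ c₀ → s c = s' c) (hs₀ : s c₀ = !s' c₀) (hc₀ : c₀ ∈ H)
    {f : (E → Equiv.Perm (Ps C R)) → Prop} (B : Finset (V → Equiv.Perm (Ps C R)))
    (h : ∀ y, y ∉ B → UC T (VW src tgt s y H) f) :
    (univ.filter fun y => f (mk src tgt s y)).card ≤
    (univ.filter fun y => f (mk src tgt s' y)).card + B.card := by
  set U := univ.filter fun g : V → Equiv.Perm (Ps C R) => Supp H g
  have hU : 0 < U.card := card_pos.2 ⟨1, mem_filter.2 ⟨mem_univ _, fun _ _ _ => rfl⟩⟩
  have hdc : ∀ σ : C → Bool, ∑ y : V → Equiv.Perm (Ps C R),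
      (univ.filter fun g => Supp H g ∧ f (mk src tgt σ (y * g))).card =
      (univ.filter fun y => f (mk src tgt σ y)).card * U.card := by
    intro σ
    have h1 : ∀ y : V → Equiv.Perm (Ps C R),
        (univ.filter fun g => Supp H g ∧ f (mk src tgt σ (y * g))).card =
        ∑ g ∈ U, if f (mk src tgt σ (y * g)) then 1 else 0 := by
      intro y
      rw [← filter_filter, card_filter]
    simp only [h1]
    rw [sum_comm]
    have h2 : ∀ g ∈ U, (∑ y : V → Equiv.Perm (Ps C R),
        if f (mk src tgt σ (y * g)) then 1 else 0) =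
        (univ.filter fun y => f (mk src tgt σ y)).card := by
      intro g _
      rw [card_filter]
      exact Fintype.sum_equiv (Equiv.mulRight g) _ _ fun y => rfl
    rw [sum_congr rfl h2, sum_const, smul_eq_mul, mul_comm]
  have h1 : (univ.filter fun y => f (mk src tgt s y)).card * U.card ≤
      ((univ.filter fun y => f (mk src tgt s' y)).card + B.card) * U.card := by
    rw [← hdc s, add_mul, ← hdc s']
    have h2 : B.card * U.card = ∑ y : V → Equiv.Perm (Ps C R), if y ∈ B then U.card else 0 := by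
      rw [← sum_filter, sum_const, smul_eq_mul]
      congr 2
      ext y
      simp
    rw [h2, ← sum_add_distrib]
    refine sum_le_sum fun y _ => ?_
    by_cases hy : y ∈ B
    · rw [if_pos hy]
      refine le_trans ?_ (Nat.le_add_left _ _)
      exact card_le_card fun g hg => mem_filter.2 ⟨mem_univ _, (mem_filter.1 hg).2.1⟩
    · rw [if_neg hy, add_zero]
      exact uc_inv hT hTg hs hs₀ hc₀ (h y hy)
  exact Nat.le_of_mul_le_mul_right h1 hU

end Pool.Agent.J4H64.VC
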