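import Pool.Agent.J4H64.VC.Hybrid
import Pool.Agent.J4H64.VC.Defs
import Pool.Agent.H568R2.Defs

set_option autoImplicit false
set_option linter.unusedSectionVars false

/-!
The graph of a world, circuits reading its adjacency bits and vertex covers.
-/

namespace Pool.Agent.J4H64.VC

open Finset DomAC0
open scoped Classical

section graph

variable {q n : ℕ} (B : SimpleGraph (Fin q))

/-- the oriented edges of the base graph -/
abbrev Ed : Type := {p : Fin q × Fin q // p.1 < p.2 ∧ B.Adj p.1 p.2}

/-- the source of an edge -/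
def sr (e : Ed B) : Fin q := e.1.1

/-- the target of an edge -/
def tg (e : Ed B) : Fin q := e.1.2

variable {P : Type} [Fintype P] (ι : Fin q × P ↪ Fin n)

/-- the graph of a world -/
def gr (ω : Ed B → Equiv.Perm P) : SimpleGraph (Fin n) :=
  SimpleGraph.fromRel fun a b => ∃ e x, ι (sr B e, x) = a ∧ ι (tg B e, ω e x) = b

theorem sr_ne_tg (e : Ed B) : sr B e ≠ tg B e := ne_of_lt e.2.1

theorem gr_adj (ω : Ed B → Equiv.Perm P) (a b : Fin n) : (gr B ι ω).Adj a b ↔
    ∃ e x, (ι (sr B e, x) = a ∧ ι (tg B e, ω e x) = b) ∨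
      (ι (sr B e, x) = b ∧ ι (tg B e, ω e x) = a) := by
  unfold gr
  rw [SimpleGraph.fromRel_adj]
  constructor
  · rintro ⟨-, ⟨e, x, h⟩ | ⟨e, x, h⟩⟩
    · exact ⟨e, x, Or.inl h⟩
    · exact ⟨e, x, Or.inr h⟩
  · rintro ⟨e, x, h⟩
    have hne : ι (sr B e, x) ≠ ι (tg B e, ω e x) := by
      intro h1
      have h2 := ι.injective h1
      rw [Prod.mk.injEq] at h2
      exact sr_ne_tg B e h2.1
    rcases h with h | h
    · refine ⟨?_, Or.inl ⟨e, x, h⟩⟩
      rw [← h.1, ← h.2]
      exact hne
    · refine ⟨?_, Or.inr ⟨e, x, h⟩⟩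
      rw [← h.1, ← h.2]
      exact hne.symm

variable {B}

theorem uc_holds (W : Set (Ed B → Equiv.Perm P)) (φ : Ed B × P × P) :
    UC 1 W fun ω => Holds ω φ := by
  refine ⟨fun ω => {(φ.1, φ.2.1, ω φ.1 φ.2.1)}, fun ω _ => ⟨?_, by simp, ?_⟩⟩
  · intro ψ hψ
    rw [mem_singleton] at hψ
    subst hψ
    rfl
  · intro ω' _ h
    have h1 : ω' φ.1 φ.2.1 = ω φ.1 φ.2.1 := h _ (mem_singleton_self _)
    refine ⟨by simp only [h1], ?_⟩
    show (ω' φ.1 φ.2.1 = φ.2.2 ↔ ω φ.1 φ.2.1 = φ.2.2)
    rw [h1]

/-- an adjacency bit depends on one fact -/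
theorem uc_adj (W : Set (Ed B → Equiv.Perm P)) (a b : Fin n) :
    UC 1 W fun ω => (gr B ι ω).Adj a b := by
  by_cases h : ∃ φ : Ed B × P × P, (ι (la (sr B) φ) = a ∧ ι (lb (tg B) φ) = b) ∨
      (ι (la (sr B) φ) = b ∧ ι (lb (tg B) φ) = a)
  · obtain ⟨φ, hφ⟩ := h
    refine (uc_holds W φ).congr fun ω _ => ?_
    rw [gr_adj]
    constructor
    · intro h
      refine ⟨φ.1, φ.2.1, ?_⟩
      unfold Holds at h
      rw [h]
      exact hφ
    · rintro ⟨e, x, h⟩
      have key : ∀ (c d : Fin n), ι (la (sr B) φ) = c → ι (lb (tg B) φ) = d →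
          ι (sr B e, x) = c → ι (tg B e, ω e x) = d → Holds ω φ := by
        intro c d h1 h2 h3 h4
        have h5 := ι.injective (h1.trans h3.symm)
        have h6 := ι.injective (h2.trans h4.symm)
        obtain ⟨e', x', z'⟩ := φ
        unfold la at h5
        unfold lb at h6
        simp only [Prod.mk.injEq] at h5 h6
        have h7 : e' = e := Subtype.ext (Prod.ext h5.1 h6.1)
        subst h7
        unfold Holds
        simp only
        rw [h5.2, h6.2]
      have cross : ∀ (c d : Fin n), ι (la (sr B) φ) = c → ι (lb (tg B) φ) = d →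
          ι (sr B e, x) = d → ι (tg B e, ω e x) = c → False := by
        intro c d h1 h2 h3 h4
        have h5 := ι.injective (h1.trans h4.symm)
        have h6 := ι.injective (h2.trans h3.symm)
        obtain ⟨e', x', z'⟩ := φ
        unfold la at h5
        unfold lb at h6
        simp only [Prod.mk.injEq] at h5 h6
        have h7 : sr B e' < tg B e' := e'.2.1
        have h8 : sr B e < tg B e := e.2.1
        rw [h5.1, h6.1] at h7
        exact absurd (h7.trans h8) (lt_irrefl _)
      rcases hφ with hφ | hφ <;> rcases h with h | h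
      · exact key a b hφ.1 hφ.2 h.1 h.2
      · exact (cross a b hφ.1 hφ.2 h.1 h.2).elim
      · exact (cross b a hφ.1 hφ.2 h.1 h.2).elim
      · exact key b a hφ.1 hφ.2 h.1 h.2
  · refine (UC.const 1 W False).congr fun ω _ => ?_
    rw [gr_adj]
    constructor
    · exact False.elim
    · rintro ⟨e, x, h1⟩
      exact h ⟨(e, x, ω e x), h1⟩

/-! ### Circuits -/

theorem depth_lt {J : Type} (C : Circuit J) (g : Fin C.size) (v : J ⊕ Fin C.size)
    (hv : v ∈ C.preds g) : C.nodeDepth v < C.gateDepth g := by
  rw [Circuit.gateDepth, Nat.lt_succ_iff]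
  have := Finset.le_sup (f := fun v : {x // x ∈ C.preds g} =>
    match v with
    | ⟨Sum.inl _, _⟩ => 0
    | ⟨Sum.inr h, hh⟩ => Circuit.gateDepth C h) (Finset.mem_attach (C.preds g) ⟨v, hv⟩)
  refine le_trans ?_ this
  cases v with
  | inl j => exact le_refl _
  | inr h => exact le_refl _

theorem one_le_depth {J : Type} (C : Circuit J) (g : Fin C.size) : 1 ≤ C.gateDepth g := by
  rw [Circuit.gateDepth]
  exact Nat.le_add_left _ _

/-- the polar value of a gate -/
def polk : GateKind → Bool
  | GateKind.and => false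
  | GateKind.or => true
  | GateKind.not => false

theorem gate_iff {J : Type} (C : Circuit J) (g : Fin C.size) :
    ∃ b : Bool, ∀ x : J → Bool, C.gateVal x g = polk (C.kind g) ↔
      ∃ v ∈ C.preds g, C.nodeVal x v = b := by
  rcases hk : C.kind g with _ | _ | _
  · refine ⟨true, fun x => ?_⟩
    rw [Circuit.gateVal, hk]
    simp only [polk, decide_eq_false_iff_not]
    rw [not_forall]
    constructor
    · rintro ⟨v, hv⟩
      rw [not_forall] at hv
      obtain ⟨hv, h⟩ := hv
      refine ⟨v, hv, ?_⟩
      cases v <;> (rw [Bool.not_eq_false] at h; exact h)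
    · rintro ⟨v, hv, h⟩
      refine ⟨v, ?_⟩
      rw [not_forall]
      refine ⟨hv, ?_⟩
      cases v <;> (rw [Bool.not_eq_false]; exact h)
  · refine ⟨false, fun x => ?_⟩
    rw [Circuit.gateVal, hk]
    simp only [polk, decide_eq_false_iff_not]
    rw [not_forall]
    constructor
    · rintro ⟨v, hv⟩
      rw [not_forall] at hv
      obtain ⟨hv, h⟩ := hv
      refine ⟨v, hv, ?_⟩
      cases v <;> (rw [Bool.not_eq_true] at h; exact h)
    · rintro ⟨v, hv, h⟩
      refine ⟨v, ?_⟩
      rw [not_forall]
      refine ⟨hv, ?_⟩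
      cases v <;> (rw [Bool.not_eq_true]; exact h)
  · refine ⟨true, fun x => ?_⟩
    rw [Circuit.gateVal, hk]
    simp only [polk, decide_eq_true_eq]
    constructor
    · rintro ⟨v, hv, h⟩
      refine ⟨v, hv, ?_⟩
      cases v <;> exact h
    · rintro ⟨v, hv, h⟩
      refine ⟨v, hv, ?_⟩
      cases v <;> exact h

/-- the net of a circuit reading the adjacency bits -/
noncomputable def netC (Cc : Circuit (Pairs n)) : Net (Ed B) P (Pairs n ⊕ Fin Cc.size) where
  val v ω := Cc.nodeVal (adjBits (gr B ι ω)) v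
  lev v := Cc.nodeDepth v
  pol v := match v with
    | Sum.inl _ => false
    | Sum.inr g => polk (Cc.kind g)
  zero v hv W := by
    cases v with
    | inl p =>
      refine (uc_adj ι W p.1.1 p.1.2).congr fun ω _ => ?_
      show _ ↔ decide ((gr B ι ω).Adj p.1.1 p.1.2) = true
      rw [decide_eq_true_eq]
    | inr g =>
      exact absurd hv (Nat.one_le_iff_ne_zero.1 (one_le_depth Cc g))
  succ v k hv := by
    cases v with
    | inl p => exact absurd hv (Nat.succ_ne_zero k).symm
    | inr g =>
      obtain ⟨b, hb⟩ := gate_iff Cc g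
      refine ⟨Cc.preds g, b, fun u hu => ?_, fun ω => hb _⟩
      have h1 := depth_lt Cc g u hu
      have h2 : Cc.gateDepth g = k + 1 := hv
      omega

/-! ### Vertex covers -/

variable {C R : Type} [Fintype C] [Fintype R] (κ : Fin q × Ps C R ↪ Fin n)

/-- With all signatures one there is a cover with half of the vertices. -/
theorem cover_one (y : Fin q → Equiv.Perm (Ps C R)) :
    ∃ A, IsCover (gr B κ (mk (sr B) (tg B) (fun _ => true) y)) A ∧
      A.card = q * (Fintype.card C * Fintype.card R) := by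
  let f : Fin q × C × R → Fin n := fun p => κ (p.1, y p.1 ⟨p.2.1, p.2.2, false⟩)
  have hf : Function.Injective f := by
    rintro ⟨i, c, r⟩ ⟨i', c', r'⟩ h
    have h1 := κ.injective h
    simp only [Prod.mk.injEq] at h1
    obtain ⟨rfl, h2⟩ := h1
    have h3 := (y i).injective h2
    rw [Ps.mk.injEq] at h3
    obtain ⟨rfl, rfl, -⟩ := h3
    rfl
  refine ⟨univ.image f, ?_, ?_⟩
  · have key : ∀ (e : Ed B) (x : Ps C R), κ (sr B e, x) ∈ univ.image f ∨
        κ (tg B e, mk (sr B) (tg B) (fun _ => true) y e x) ∈ univ.image f := by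
      intro e x
      have h1 := mk_apply (sr B) (tg B) (fun _ => true) y e ((y (sr B e)).symm x)
      rw [Equiv.apply_symm_apply] at h1
      rw [h1]
      rcases hb : ((y (sr B e)).symm x).b with _ | _
      · left
        refine mem_image.2 ⟨(sr B e, ((y (sr B e)).symm x).g, ((y (sr B e)).symm x).t),
          mem_univ _, ?_⟩
        simp only [f]
        congr 2
        rw [← Equiv.eq_symm_apply]
        exact Ps.ext rfl rfl hb.symm
      · right
        refine mem_image.2 ⟨(tg B e, ((y (sr B e)).symm x).g, ((y (sr B e)).symm x).t),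
          mem_univ _, ?_⟩
        simp only [f]
        congr 2
        refine congrArg _ (Ps.ext rfl rfl ?_)
        show false = xor ((y (sr B e)).symm x).b true
        rw [hb]; rfl
    intro u v huv
    rw [gr_adj] at huv
    obtain ⟨e, x, h | h⟩ := huv
    · rw [← h.1, ← h.2]; exact key e x
    · rw [← h.1, ← h.2]; exact (key e x).symm
  · rw [card_image_of_injective _ hf, card_univ, Fintype.card_prod, Fintype.card_prod,
      Fintype.card_fin]

/-- With all signatures zero every cover contains almost all vertices. -/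
theorem cover_zero {α : ℕ} (hα : ∀ I : Finset (Fin q), (∀ u ∈ I, ∀ v ∈ I, ¬ B.Adj u v) →
      I.card ≤ α) (y : Fin q → Equiv.Perm (Ps C R)) (A : Finset (Fin n))
    (hA : IsCover (gr B κ (mk (sr B) (tg B) (fun _ => false) y)) A) :
    (q - α) * Fintype.card (Ps C R) ≤ A.card := by
  have h1 : ∀ p : Ps C R, q - α ≤ (univ.filter fun i : Fin q => κ (i, y i p) ∈ A).card := by
    intro p
    have h2 := hα (univ.filter fun i : Fin q => ¬ κ (i, y i p) ∈ A) (by
      intro u hu v hv hadj
      have hu' := (mem_filter.1 hu).2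
      have hv' := (mem_filter.1 hv).2
      have key : ∀ (a b : Fin q), a < b → B.Adj a b → ¬ κ (a, y a p) ∈ A → ¬ κ (b, y b p) ∈ A →
          False := by
        intro a b hab hadj ha hb
        let e : Ed B := ⟨(a, b), hab, hadj⟩
        have h3 := mk_apply (sr B) (tg B) (fun _ => false) y e p
        have h4 : sh (fun _ => false) p = p := Ps.ext rfl rfl (by
          show xor p.b false = p.b
          simp)
        rw [h4] at h3
        have h5 : (gr B κ (mk (sr B) (tg B) (fun _ => false) y)).Adj (κ (a, y a p))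
            (κ (b, y b p)) := by
          rw [gr_adj]
          refine ⟨e, y a p, Or.inl ⟨rfl, ?_⟩⟩
          have h6 : mk (sr B) (tg B) (fun _ => false) y e (y a p) = y b p := h3
          rw [h6]
          rfl
        rcases hA _ _ h5 with h6 | h6
        · exact ha h6
        · exact hb h6
      rcases lt_trichotomy u v with h | h | h
      · exact key u v h hadj hu' hv'
      · exact B.ne_of_adj hadj h
      · exact key v u h hadj.symm hv' hu')
    have h3 := card_filter_add_card_filter_not (s := (univ : Finset (Fin q)))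
      (fun i : Fin q => κ (i, y i p) ∈ A)
    rw [card_univ, Fintype.card_fin] at h3
    omega
  have h2 : (q - α) * Fintype.card (Ps C R) ≤
      ∑ p : Ps C R, (univ.filter fun i : Fin q => κ (i, y i p) ∈ A).card := by
    rw [mul_comm, ← card_univ, ← smul_eq_mul, ← sum_const]
    exact sum_le_sum fun p _ => h1 p
  refine h2.trans ?_
  rw [← card_sigma]
  refine card_le_card_of_injOn (fun s => κ (s.2, y s.2 s.1)) ?_ ?_
  · rintro ⟨p, i⟩ h
    exact (mem_filter.1 (mem_sigma.1 (mem_coe.1 h)).2).2
  · rintro ⟨p, i⟩ _ ⟨p', i'⟩ _ h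
    have h3 := κ.injective h
    simp only [Prod.mk.injEq] at h3
    obtain ⟨rfl, h4⟩ := h3
    have h5 := (y i).injective h4
    subst h5
    rfl

/-- The degrees. -/
theorem degree_le {Δ : ℕ} (hΔ : ∀ v, (univ.filter fun e => sr B e = v).card +
    (univ.filter fun e => tg B e = v).card ≤ Δ) (ω : Ed B → Equiv.Perm P) (u : Fin n) :
    (univ.filter fun v => (gr B ι ω).Adj u v).card ≤ Δ := by
  by_cases hu : ∃ l, ι l = u
  · obtain ⟨⟨i, x⟩, rfl⟩ := hu
    have h1 : (univ.filter fun v => (gr B ι ω).Adj (ι (i, x)) v) ⊆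
        ((univ.filter fun e => sr B e = i).image fun e => ι (tg B e, ω e x)) ∪
        ((univ.filter fun e => tg B e = i).image fun e => ι (sr B e, (ω e).symm x)) := by
      intro v hv
      have h2 := (mem_filter.1 hv).2
      rw [gr_adj] at h2
      obtain ⟨e, z, h | h⟩ := h2
      · have h3 := ι.injective h.1
        rw [Prod.mk.injEq] at h3
        refine mem_union_left _ (mem_image.2 ⟨e, mem_filter.2 ⟨mem_univ _, h3.1⟩, ?_⟩)
        rw [← h3.2]
        exact h.2
      · have h3 := ι.injective h.2
        rw [Prod.mk.injEq] at h3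
        refine mem_union_right _ (mem_image.2 ⟨e, mem_filter.2 ⟨mem_univ _, h3.1⟩, ?_⟩)
        rw [← h3.2, Equiv.symm_apply_apply]
        exact h.1
    refine (card_le_card h1).trans ((card_union_le _ _).trans (le_trans ?_ (hΔ i)))
    exact add_le_add card_image_le card_image_le
  · have h1 : (univ.filter fun v => (gr B ι ω).Adj u v) = ∅ := by
      ext v
      rw [mem_filter, gr_adj]
      simp only [mem_univ, true_and, notMem_empty, iff_false]
      rintro ⟨e, x, h | h⟩
      · exact hu ⟨_, h.1⟩
      · exact hu ⟨_, h.2⟩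
    rw [h1]
    exact Nat.zero_le _

end graph

end Pool.Agent.J4H64.VC
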