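import Pool.Agent.J4H64.VC.Stage

set_option autoImplicit false
set_option linter.unusedSectionVars false

/-!
The hybrid argument.
-/

namespace Pool.Agent.J4H64.VC

open Finset
open scoped Classical

variable {V E C R : Type} [Fintype V] [Fintype E] [Fintype C] [Fintype R] {src tgt : E → V}

/-- The conditions on a net of gates over the worlds: nodes of level zero depend on one fact, a node
of level `k + 1` has its polar value iff some node of level at most `k` has a given value. -/
structure Net (E : Type) (P : Type) [Fintype E] [Fintype P] (N : Type) where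
  /-- the value of a node -/
  val : N → (E → Equiv.Perm P) → Bool
  /-- the level of a node -/
  lev : N → ℕ
  /-- the polarity of a node -/
  pol : N → Bool
  zero : ∀ v, lev v = 0 → ∀ W, UC 1 W fun ω => val v ω = true
  succ : ∀ v k, lev v = k + 1 → ∃ (A : Finset N) (b : Bool), (∀ u ∈ A, lev u ≤ k) ∧
      ∀ ω, val v ω = pol v ↔ ∃ u ∈ A, val u ω = b

/-- the number of namings whose world satisfies `f` -/
noncomputable def cn (src tgt : E → V) (s : C → Bool) (f : (E → Equiv.Perm (Ps C R)) → Prop) : ℕ :=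
  (univ.filter fun y : V → Equiv.Perm (Ps C R) => f (mk src tgt s y)).card

theorem cn_step {g₀ T : ℕ} {s s' : C → Bool} {c₀ : C} {H : Finset C} (hT : Tree src tgt g₀)
    (hTg : T ≤ g₀) (hs : ∀ c, c ≠ c₀ → s c = s' c) (hs₀ : s c₀ = !s' c₀) (hc₀ : c₀ ∈ H)
    {f : (E → Equiv.Perm (Ps C R)) → Prop} (B : Finset (V → Equiv.Perm (Ps C R)))
    (h : ∀ y, y ∉ B → UC T (VW src tgt s y H) f) :
    cn src tgt s f ≤ cn src tgt s' f + B.card := hyb_step hT hTg hs hs₀ hc₀ B h

theorem mem_js (c₀ : C) (M : ℕ → C) (a Δ K d k : ℕ) : c₀ ∈ Js c₀ M a Δ K d k :=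
  mem_insert_self _ _

theorem js_anti (c₀ : C) (M : ℕ → C) {a : ℕ} (ha : 1 ≤ a) (Δ K d k : ℕ) :
    Js c₀ M a Δ K d (k + 1) ⊆ Js c₀ M a Δ K d k := by
  rcases Nat.lt_or_ge k d with h | h
  · exact js_mono c₀ M ha Δ K d k h
  · have h1 : ex Δ K d (k + 1) = ex Δ K d k := by
      unfold ex
      rw [Ico_eq_empty (by omega), Ico_eq_empty (by omega)]
    unfold Js
    rw [h1]

/-- The union of the bad sets. -/
theorem exists_bad [Nonempty R] {Δ K g₀ : ℕ}
    (hΔ : ∀ v, (univ.filter fun e => src e = v).card + (univ.filter fun e => tgt e = v).card ≤ Δ)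
    (hT : Tree src tgt g₀) {d a : ℕ}
    (hg : el Δ K d ≤ g₀) (hR : 2 * el Δ K d ≤ Fintype.card R)
    {s : C → Bool} {c₀ : C} {M : ℕ → C} (hM : ∀ i < a ^ ex Δ K d 0, M i ≠ c₀)
    (hMi : ∀ i < a ^ ex Δ K d 0, ∀ j < a ^ ex Δ K d 0, M i = M j → i = j)
    (hMs : ∀ i < a ^ ex Δ K d 0, ∀ j < a ^ ex Δ K d 0, s (M i) = s (M j))
    (ha1 : 4 * Fintype.card R ≤ a) (ha2 : ∀ k < d, ns Δ K k + 1 ≤ a)
    (ha3 : ∀ k < d, 2 ^ (Fintype.card E * ((Fintype.card R * 2) * (Fintype.card R * 2))) *
      el Δ K k ^ ns Δ K k ≤ a) {N : Type} (T : Net E (Ps C R) N) (S : ℕ) (A : Finset N)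
    (hA : ∀ v, T.lev v ≠ 0 → v ∈ A) (hS : A.card ≤ S) :
    ∃ B : Finset (V → Equiv.Perm (Ps C R)),
      B.card * a ^ (K * ex Δ K d 0) ≤ S * Fintype.card (V → Equiv.Perm (Ps C R)) ∧
      ∀ y, y ∉ B → ∀ v, T.lev v ≤ d →
        UC (el Δ K d) (VW src tgt s y (Js c₀ M a Δ K d d)) fun ω => T.val v ω = true := by
  let rk : Finset (E × Ps C R × Ps C R) → ℕ := fun τ => (Fintype.equivFin _ τ : ℕ)
  have hrk : Function.Injective rk := fun τ τ' h => (Fintype.equivFin _).injective (Fin.ext h)
  have ha : 1 ≤ a := by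
    have : 0 < Fintype.card R := Fintype.card_pos
    omega
  let Bv : N → Finset (V → Equiv.Perm (Ps C R)) := fun v =>
    if T.lev v - 1 < d then univ.filter fun y => Bad rk
      (Fam src tgt s (Js c₀ M a Δ K d (T.lev v - 1)) (el Δ K (T.lev v - 1))
        (fun ω => T.val v ω = T.pol v) y) src tgt s y
      (Js c₀ M a Δ K d (T.lev v - 1 + 1)) (el Δ K (T.lev v - 1)) (ns Δ K (T.lev v - 1)) else ∅
  have hBv : ∀ v, (Bv v).card * a ^ (K * ex Δ K d 0) ≤
      Fintype.card (V → Equiv.Perm (Ps C R)) := by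
    intro v
    simp only [Bv]
    split_ifs with h
    · exact bad_gate hT h ((el_mono Δ K h.le).trans hg)
        ((Nat.mul_le_mul_left 2 (el_mono Δ K h.le)).trans hR) hrk hM hMi hMs ha1 (ha2 _ h)
        (ha3 _ h) _
    · simp
  refine ⟨A.biUnion Bv, ?_, ?_⟩
  · calc (A.biUnion Bv).card * a ^ (K * ex Δ K d 0)
        ≤ (∑ v ∈ A, (Bv v).card) * a ^ (K * ex Δ K d 0) :=
          Nat.mul_le_mul_right _ card_biUnion_le
      _ = ∑ v ∈ A, (Bv v).card * a ^ (K * ex Δ K d 0) := sum_mul _ _ _
      _ ≤ ∑ v ∈ A, Fintype.card (V → Equiv.Perm (Ps C R)) := sum_le_sum fun v _ => hBv v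
      _ = A.card * Fintype.card (V → Equiv.Perm (Ps C R)) := by rw [sum_const, smul_eq_mul]
      _ ≤ _ := Nat.mul_le_mul_right _ hS
  · intro y hy v hv
    refine levels (rk := rk) hΔ (js_anti c₀ M ha Δ K d) T.val T.lev T.pol T.zero T.succ ?_ d
      le_rfl v hv
    intro u k hk hlev hbad
    refine hy (mem_biUnion.2 ⟨u, hA u (by omega), ?_⟩)
    have h1 : T.lev u - 1 = k := by omega
    simp only [Bv]
    rw [h1, if_pos hk]
    exact mem_filter.2 ⟨mem_univ _, hbad⟩

/-- the hybrid signature -/
def hs (N c : ℕ) : Fin N → Bool := fun i => decide (i.val < c)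

/-- Nets of constant depth and polynomial size do not see the signature. -/
theorem fool_net [Nonempty R] {Δ K g₀ : ℕ}
    (hΔ : ∀ v, (univ.filter fun e => src e = v).card + (univ.filter fun e => tgt e = v).card ≤ Δ)
    (hT : Tree src tgt g₀) {d : ℕ}
    (hg : el Δ K d ≤ g₀) (hR : 2 * el Δ K d ≤ Fintype.card R) :
    ∃ a₀ : ℕ, ∀ a ≥ a₀, ∀ N : ℕ, 2 * a ^ ex Δ K d 0 + 1 ≤ N →
      ∀ {X : Type} (T : Net E (Ps (Fin N) R) X) (S : ℕ) (A : Finset X),
      (∀ v, T.lev v ≠ 0 → v ∈ A) → A.card ≤ S → ∀ v, T.lev v ≤ d →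
      cn src tgt (fun _ => false) (fun ω => T.val v ω = true) * a ^ (K * ex Δ K d 0) ≤
        cn src tgt (fun _ => true) (fun ω => T.val v ω = true) * a ^ (K * ex Δ K d 0) +
          N * (S * Fintype.card (V → Equiv.Perm (Ps (Fin N) R))) ∧
      cn src tgt (fun _ => true) (fun ω => T.val v ω = true) * a ^ (K * ex Δ K d 0) ≤
        cn src tgt (fun _ => false) (fun ω => T.val v ω = true) * a ^ (K * ex Δ K d 0) +
          N * (S * Fintype.card (V → Equiv.Perm (Ps (Fin N) R))) := by
  obtain ⟨cst, hcst⟩ : ∃ cst, cst =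
    2 ^ (Fintype.card E * ((Fintype.card R * 2) * (Fintype.card R * 2))) := ⟨_, rfl⟩
  refine ⟨4 * Fintype.card R + ∑ k ∈ range d, (ns Δ K k + 1 + cst * el Δ K k ^ ns Δ K k), ?_⟩
  intro a ha N hN X T S A hA hS v hv
  have hk : ∀ k < d, ns Δ K k + 1 + cst * el Δ K k ^ ns Δ K k ≤ a := by
    intro k hk
    have h1 := single_le_sum (f := fun k => ns Δ K k + 1 + cst * el Δ K k ^ ns Δ K k)
      (s := range d) (fun _ _ => Nat.zero_le _) (mem_range.2 hk)
    omega
  set W := a ^ (K * ex Δ K d 0)
  set Y := Fintype.card (V → Equiv.Perm (Ps (Fin N) R))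
  set A0 := a ^ ex Δ K d 0
  let cnt : ℕ → ℕ := fun c => cn src tgt (hs N c) (fun ω => T.val v ω = true)
  have hstep : ∀ c < N, cnt c * W ≤ cnt (c + 1) * W + S * Y ∧
      cnt (c + 1) * W ≤ cnt c * W + S * Y := by
    intro c hc
    let c₀ : Fin N := ⟨c, hc⟩
    -- groups of the same signature
    obtain ⟨M, hM, hMi, σ, hMs, hMs'⟩ : ∃ M : ℕ → Fin N, (∀ i < A0, M i ≠ c₀) ∧
        (∀ i < A0, ∀ j < A0, M i = M j → i = j) ∧ ∃ σ, (∀ i < A0, hs N c (M i) = σ) ∧
          ∀ i < A0, hs N (c + 1) (M i) = σ := by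
      rcases Nat.lt_or_ge c A0 with h | h
      · let M : ℕ → Fin N := fun i => if h : c + 1 + i < N then ⟨c + 1 + i, h⟩ else c₀
        have hM : ∀ i < A0, (M i).val = c + 1 + i := by
          intro i hi
          have h1 : c + 1 + i < N := by omega
          simp only [M, dif_pos h1]
        refine ⟨M, ?_, ?_, false, ?_, ?_⟩
        · intro i hi h1
          have h2 := congrArg Fin.val h1
          rw [hM i hi] at h2
          simp only [c₀] at h2
          omega
        · intro i hi j hj h1
          have h2 := congrArg Fin.val h1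
          rw [hM i hi, hM j hj] at h2
          omega
        · intro i hi
          unfold hs
          rw [hM i hi]
          simp only [decide_eq_false_iff_not]
          omega
        · intro i hi
          unfold hs
          rw [hM i hi]
          simp only [decide_eq_false_iff_not]
          omega
      · let M : ℕ → Fin N := fun i => if h : i < N then ⟨i, h⟩ else c₀
        have hM : ∀ i < A0, (M i).val = i := by
          intro i hi
          have h1 : i < N := by omega
          simp only [M, dif_pos h1]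
        refine ⟨M, ?_, ?_, true, ?_, ?_⟩
        · intro i hi h1
          have h2 := congrArg Fin.val h1
          rw [hM i hi] at h2
          simp only [c₀] at h2
          omega
        · intro i hi j hj h1
          have h2 := congrArg Fin.val h1
          rw [hM i hi, hM j hj] at h2
          omega
        · intro i hi
          unfold hs
          rw [hM i hi]
          simp only [decide_eq_true_eq]
          omega
        · intro i hi
          unfold hs
          rw [hM i hi]
          simp only [decide_eq_true_eq]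
          omega
    obtain ⟨B, hB1, hB2⟩ := exists_bad (s := hs N c) hΔ hT hg hR hM hMi
      (fun i hi j hj => (hMs i hi).trans (hMs j hj).symm) (by omega)
      (fun k hk' => by have := hk k hk'; omega)
      (fun k hk' => by have := hk k hk'; rw [← hcst]; omega) T S A hA hS
    obtain ⟨B', hB1', hB2'⟩ := exists_bad (s := hs N (c + 1)) hΔ hT hg hR hM hMi
      (fun i hi j hj => (hMs' i hi).trans (hMs' j hj).symm) (by omega)
      (fun k hk' => by have := hk k hk'; omega)
      (fun k hk' => by have := hk k hk'; rw [← hcst]; omega) T S A hA hS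
    have hsig : ∀ i : Fin N, i ≠ c₀ → hs N c i = hs N (c + 1) i := by
      intro i hi
      have h1 : i.val ≠ c := fun h => hi (Fin.ext h)
      unfold hs
      rw [decide_eq_decide]
      omega
    have hs0 : hs N c c₀ = false := by
      unfold hs
      simp only [decide_eq_false_iff_not, c₀]
      omega
    have hs1 : hs N (c + 1) c₀ = true := by
      unfold hs
      simp only [decide_eq_true_eq, c₀]
      omega
    have hin : c₀ ∈ Js c₀ M a Δ K d d := mem_js _ _ _ _ _ _ _
    have h1 := cn_step hT hg hsig (by rw [hs0, hs1]; rfl) hin B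
      (fun y hy => hB2 y hy v hv)
    have h2 := cn_step hT hg (fun i hi => (hsig i hi).symm) (by rw [hs0, hs1]; rfl) hin B'
      (fun y hy => hB2' y hy v hv)
    constructor
    · calc cnt c * W ≤ (cnt (c + 1) + B.card) * W := Nat.mul_le_mul_right _ h1
        _ = cnt (c + 1) * W + B.card * W := add_mul _ _ _
        _ ≤ _ := Nat.add_le_add_left hB1 _
    · calc cnt (c + 1) * W ≤ (cnt c + B'.card) * W := Nat.mul_le_mul_right _ h2
        _ = cnt c * W + B'.card * W := add_mul _ _ _
        _ ≤ _ := Nat.add_le_add_left hB1' _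
  have hall : ∀ c ≤ N, cnt 0 * W ≤ cnt c * W + c * (S * Y) ∧
      cnt c * W ≤ cnt 0 * W + c * (S * Y) := by
    intro c
    induction c with
    | zero => intro _; simp
    | succ c ih =>
      intro hc
      obtain ⟨h1, h2⟩ := ih (by omega)
      obtain ⟨h3, h4⟩ := hstep c (by omega)
      have h5 : (c + 1) * (S * Y) = c * (S * Y) + S * Y := by ring
      rw [h5]
      omega
  have h0 : hs N 0 = fun _ => false := by
    funext i
    simp [hs]
  have h1 : hs N N = fun _ => true := by
    funext i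
    simp [hs]
  have h2 := hall N le_rfl
  simp only [cnt, h0, h1] at h2
  exact h2

end Pool.Agent.J4H64.VC
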