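import Pool.Agent.J4H64.VC.Tree
import Pool.Agent.J4H64.VC.Avg
import Pool.Agent.J4H64.VC.Base

set_option autoImplicit false
set_option linter.unusedSectionVars false

/-!
Circuits of constant depth and vertex covers.
-/

namespace Pool.Agent.J4H64.VC

open Finset DomAC0
open scoped Classical

theorem deg_ed {q : ℕ} {B : SimpleGraph (Fin q)} {L : ℕ}
    (hL : ∀ v, ∀ S : Finset (Fin q), (∀ w ∈ S, B.Adj v w) → S.card ≤ L) (v : Fin q) :
    (univ.filter fun e => sr B e = v).card + (univ.filter fun e => tg B e = v).card ≤ L := by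
  have h1 : ((univ.filter fun e => sr B e = v).image (tg B)).card =
      (univ.filter fun e => sr B e = v).card := by
    refine card_image_of_injOn fun e he e' he' h => ?_
    have h2 := (mem_filter.1 (mem_coe.1 he)).2
    have h3 := (mem_filter.1 (mem_coe.1 he')).2
    exact Subtype.ext (Prod.ext (h2.trans h3.symm) h)
  have h2 : ((univ.filter fun e => tg B e = v).image (sr B)).card =
      (univ.filter fun e => tg B e = v).card := by
    refine card_image_of_injOn fun e he e' he' h => ?_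
    have h2 := (mem_filter.1 (mem_coe.1 he)).2
    have h3 := (mem_filter.1 (mem_coe.1 he')).2
    exact Subtype.ext (Prod.ext h (h2.trans h3.symm))
  rw [← h1, ← h2, ← card_union_of_disjoint]
  · refine hL v _ fun w hw => ?_
    rcases mem_union.1 hw with h | h
    · obtain ⟨e, he, rfl⟩ := mem_image.1 h
      have h3 := (mem_filter.1 he).2
      rw [← h3]
      exact e.2.2
    · obtain ⟨e, he, rfl⟩ := mem_image.1 h
      have h3 := (mem_filter.1 he).2
      rw [← h3]
      exact e.2.2.symm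
  · refine disjoint_left.2 fun w hw hw' => ?_
    obtain ⟨e, he, rfl⟩ := mem_image.1 hw
    obtain ⟨e', he', h⟩ := mem_image.1 hw'
    have h3 := (mem_filter.1 he).2
    have h4 := (mem_filter.1 he').2
    have h5 : sr B e < tg B e := e.2.1
    have h6 : sr B e' < tg B e' := e'.2.1
    rw [h3, ← h] at h5
    rw [h4] at h6
    exact absurd (h5.trans h6) (lt_irrefl _)

section col

variable {q n : ℕ} {B : SimpleGraph (Fin q)} {C R : Type} [Fintype C] [Fintype R]
  (κ : Fin q × Ps C R ↪ Fin n)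

/-- With all signatures one the graph is bipartite. -/
theorem colorable_one (y : Fin q → Equiv.Perm (Ps C R)) :
    (gr B κ (mk (sr B) (tg B) (fun _ => true) y)).Colorable 2 := by
  let c : Fin n → Bool := fun u =>
    if h : ∃ l, κ l = u then ((y h.choose.1).symm h.choose.2).b else false
  have hc : ∀ l, c (κ l) = ((y l.1).symm l.2).b := by
    intro l
    have h : ∃ l', κ l' = κ l := ⟨l, rfl⟩
    have h1 : c (κ l) = ((y h.choose.1).symm h.choose.2).b := dif_pos h
    rw [h1, κ.injective h.choose_spec]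
  have key : ∀ (e : Ed B) (x : Ps C R), c (κ (sr B e, x)) ≠
      c (κ (tg B e, mk (sr B) (tg B) (fun _ => true) y e x)) := by
    intro e x
    rw [hc, hc]
    have h1 := mk_apply (sr B) (tg B) (fun _ => true) y e ((y (sr B e)).symm x)
    rw [Equiv.apply_symm_apply] at h1
    simp only
    rw [h1, Equiv.symm_apply_apply]
    show ((y (sr B e)).symm x).b ≠ xor ((y (sr B e)).symm x).b true
    cases ((y (sr B e)).symm x).b <;> simp
  have col : (gr B κ (mk (sr B) (tg B) (fun _ => true) y)).Coloring Bool :=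
    SimpleGraph.Coloring.mk c (by
      intro u v huv
      rw [gr_adj] at huv
      obtain ⟨e, x, h | h⟩ := huv
      · rw [← h.1, ← h.2]; exact key e x
      · rw [← h.1, ← h.2]; exact (key e x).symm)
  have h1 := col.colorable
  rwa [Fintype.card_bool] at h1

end col

theorem tau_le {n : ℕ} {G : SimpleGraph (Fin n)} {A : Finset (Fin n)} (h : IsCover G A) :
    tau G ≤ A.card := Nat.sInf_le ⟨A, h, rfl⟩

theorem exists_tau {n : ℕ} (G : SimpleGraph (Fin n)) : ∃ A, IsCover G A ∧ A.card = tau G :=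
  Nat.sInf_mem (s := {m | ∃ A : Finset (Fin n), IsCover G A ∧ A.card = m})
    ⟨univ.card, univ, fun u _ _ => Or.inl (mem_univ u), rfl⟩

/-- a bipartite graph has a cover with at most half of the vertices -/
theorem tau_bip {n : ℕ} {G : SimpleGraph (Fin n)} (h : G.Colorable 2) : 2 * tau G ≤ n := by
  obtain ⟨c⟩ := h
  have hcov : ∀ i : Fin 2, IsCover G (univ.filter fun u => c u = i) := by
    intro i u v huv
    have h1 := c.valid huv
    by_contra hcon
    push Not at hcon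
    rw [mem_filter, mem_filter] at hcon
    have h2 : c u ≠ i := fun h => hcon.1 ⟨mem_univ _, h⟩
    have h3 : c v ≠ i := fun h => hcon.2 ⟨mem_univ _, h⟩
    apply h1
    apply Fin.ext
    have h4 : (c u).val ≠ i.val := fun h => h2 (Fin.ext h)
    have h5 : (c v).val ≠ i.val := fun h => h3 (Fin.ext h)
    have h6 := (c u).isLt
    have h7 := (c v).isLt
    have h8 := i.isLt
    omega
  have h1 := tau_le (hcov 0)
  have h2 := tau_le (hcov 1)
  have h3 : (univ.filter fun u => c u = 0).card + (univ.filter fun u => c u = 1).card ≤ n := by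
    rw [← card_union_of_disjoint]
    · refine (card_le_univ _).trans (by rw [Fintype.card_fin])
    · refine disjoint_left.2 fun u hu hu' => ?_
      have h4 := (mem_filter.1 hu).2
      have h5 := (mem_filter.1 hu').2
      rw [h4] at h5
      exact absurd h5 (by decide)
  omega

/-- The two distributions, in terms of counts. -/
theorem counts (ε : ℝ) (hε : 0 < ε) : ∃ Δ : ℕ, ∀ d K : ℕ, ∃ n₀ : ℕ, ∀ n ≥ n₀,
    ∃ (Ω : Type) (_ : Fintype Ω) (_ : Nonempty Ω) (G₀ G₁ : Ω → SimpleGraph (Fin n)),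
      (∀ ω, (G₁ ω).Colorable 2) ∧
      (∀ ω (I : Finset (Fin n)), (∀ u ∈ I, ∀ v ∈ I, ¬ (G₀ ω).Adj u v) →
        (I.card : ℝ) ≤ ε * n) ∧
      (∀ ω, MaxDeg Δ (G₀ ω) ∧ MaxDeg Δ (G₁ ω)) ∧
      ∀ C : Circuit (Pairs n), C.size ≤ n ^ K → ∀ v, C.nodeDepth v ≤ d →
        |avg (fun ω => bit C v (G₀ ω)) - avg (fun ω => bit C v (G₁ ω))| ≤ 1 / (n : ℝ) ^ K := by
  obtain ⟨k0, hk0⟩ := exists_nat_gt (2 / ε)
  have hk0' : 1 ≤ k0 := by
    have h1 : (0 : ℝ) < 2 / ε := by positivity
    have h2 : (0 : ℝ) < k0 := h1.trans hk0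
    exact_mod_cast h2
  obtain ⟨Δ, hΔ⟩ := Base.exists_base k0 hk0'
  refine ⟨Δ, fun d K => ?_⟩
  -- parameters
  obtain ⟨K', hK'⟩ : ∃ K', K' = 2 * K + 2 := ⟨_, rfl⟩
  obtain ⟨g₀, hg₀⟩ : ∃ g₀, g₀ = el Δ K' d := ⟨_, rfl⟩
  have hg1 : 1 ≤ g₀ := by rw [hg₀]; exact one_le_el _ _ _
  obtain ⟨q, B, hdeg, hgirth, hind⟩ := hΔ g₀
  have hT := tree_of_girth hgirth
  have hNe : Nonempty (Fin (2 * g₀)) := ⟨⟨0, by omega⟩⟩
  obtain ⟨a₀, ha₀⟩ := fool_avg (R := Fin (2 * g₀)) (fun v => by convert deg_ed hdeg v) hT (K := K') (d := d)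
    (by rw [hg₀]) (by rw [Fintype.card_fin, hg₀])
  obtain ⟨E0, hE0⟩ : ∃ E0, E0 = ex Δ K' d 0 := ⟨_, rfl⟩
  have hE01 : 1 ≤ E0 := by rw [hE0]; exact ex_pos _ _ _ _
  obtain ⟨c, hc⟩ : ∃ c, c = q * (2 * g₀ * 2) := ⟨_, rfl⟩
  have hq : 1 ≤ q := by
    have := hind ∅ (by simp)
    omega
  have hc1 : 1 ≤ c := by
    rw [hc]
    exact Nat.one_le_iff_ne_zero.2 (Nat.mul_ne_zero (by omega) (by omega))
  obtain ⟨c', hc'⟩ : ∃ c', c' = c * 4 * 2 ^ E0 := ⟨_, rfl⟩
  obtain ⟨a₁, ha₁⟩ : ∃ a₁, a₁ = a₀ + 1 + c' ^ (2 * K + 1) := ⟨_, rfl⟩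
  obtain ⟨n₁, hn₁⟩ := exists_nat_gt (2 * c / ε)
  refine ⟨c * (2 * a₁ ^ E0 + 1) + n₁, fun n hn => ?_⟩
  -- the number of groups
  obtain ⟨N, hN⟩ : ∃ N, N = n / c := ⟨_, rfl⟩
  have hNc : N * c ≤ n := by rw [hN]; exact Nat.div_mul_le_self n c
  have hNc' : n < (N + 1) * c := by
    rw [hN, mul_comm]; exact Nat.lt_mul_div_succ n hc1
  have hN1 : 2 * a₁ ^ E0 + 1 ≤ N := by
    rw [hN, Nat.le_div_iff_mul_le hc1]
    calc (2 * a₁ ^ E0 + 1) * c = c * (2 * a₁ ^ E0 + 1) := mul_comm _ _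
      _ ≤ n := by omega
  obtain ⟨a, ha⟩ : ∃ a, a = Nat.findGreatest (fun a => 2 * a ^ E0 + 1 ≤ N) N := ⟨_, rfl⟩
  have ha1N : a₁ ≤ N := by
    have : a₁ ≤ a₁ ^ E0 := Nat.le_self_pow (by omega) _
    omega
  have haa₁ : a₁ ≤ a := by
    rw [ha]
    exact Nat.le_findGreatest ha1N hN1
  have haN : 2 * a ^ E0 + 1 ≤ N := by
    rw [ha]
    exact Nat.findGreatest_spec (P := fun a => 2 * a ^ E0 + 1 ≤ N) ha1N hN1
  have haN' : N < 2 * (a + 1) ^ E0 + 1 := by
    by_contra h
    push Not at h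
    have h1 : a + 1 ≤ N := by
      have : a + 1 ≤ (a + 1) ^ E0 := Nat.le_self_pow (by omega) _
      omega
    have h2 := Nat.le_findGreatest (P := fun a => 2 * a ^ E0 + 1 ≤ N) h1 h
    omega
  have ha0 : a₀ ≤ a := by omega
  have ha1 : 1 ≤ a := by omega
  have hac : c' ^ (2 * K + 1) ≤ a := by omega
  -- the size of `n`
  have hna : n ≤ c' * a ^ E0 := by
    have h1 : (a + 1) ^ E0 ≤ 2 ^ E0 * a ^ E0 := by
      rw [← mul_pow]
      exact Nat.pow_le_pow_left (by omega) _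
    have h2 : 1 ≤ (a + 1) ^ E0 := Nat.one_le_pow _ _ (by omega)
    calc n ≤ (N + 1) * c := hNc'.le
      _ ≤ (4 * (a + 1) ^ E0) * c := Nat.mul_le_mul_right _ (by omega)
      _ ≤ (4 * (2 ^ E0 * a ^ E0)) * c := Nat.mul_le_mul_right _ (Nat.mul_le_mul_left _ h1)
      _ = c' * a ^ E0 := by rw [hc']; ring
  have hpow : N * (n ^ K * n ^ K) ≤ a ^ (K' * E0) := by
    have h1 : N ≤ n := le_trans (Nat.le_mul_of_pos_right N hc1) hNc
    calc N * (n ^ K * n ^ K) ≤ n * (n ^ K * n ^ K) := Nat.mul_le_mul_right _ h1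
      _ = n ^ (2 * K + 1) := by rw [pow_succ, two_mul, pow_add]; ring
      _ ≤ (c' * a ^ E0) ^ (2 * K + 1) := Nat.pow_le_pow_left hna _
      _ = c' ^ (2 * K + 1) * a ^ (E0 * (2 * K + 1)) := by rw [mul_pow, ← pow_mul]
      _ ≤ a * a ^ (E0 * (2 * K + 1)) := Nat.mul_le_mul_right _ hac
      _ = a ^ (E0 * (2 * K + 1) + 1) := by rw [pow_succ, mul_comm]
      _ ≤ a ^ (K' * E0) := by
        refine Nat.pow_le_pow_right ha1 ?_
        rw [hK']
        nlinarith
  -- the embedding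
  have hcard : Fintype.card (Fin q × Ps (Fin N) (Fin (2 * g₀))) = N * c := by
    rw [Fintype.card_prod, card_ps, Fintype.card_fin, Fintype.card_fin, Fintype.card_fin, hc]
    ring
  obtain ⟨κ⟩ : Nonempty (Fin q × Ps (Fin N) (Fin (2 * g₀)) ↪ Fin n) :=
    Function.Embedding.nonempty_of_card_le (by rw [hcard, Fintype.card_fin]; exact hNc)
  have hn1 : 1 ≤ n :=
    le_trans (Nat.one_le_iff_ne_zero.2 (Nat.mul_ne_zero (by omega) (by omega))) hNc
  refine ⟨Fin q → Equiv.Perm (Ps (Fin N) (Fin (2 * g₀))), inferInstance, ⟨1⟩,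
    fun y => gr B κ (mk (sr B) (tg B) (fun _ => false) y),
    fun y => gr B κ (mk (sr B) (tg B) (fun _ => true) y),
    fun y => colorable_one κ y, ?_, ?_, ?_⟩
  · -- independent sets
    intro y I hI
    have hα : ∀ I : Finset (Fin q), (∀ u ∈ I, ∀ v ∈ I, ¬ B.Adj u v) → I.card ≤ q / k0 := by
      intro I hI
      rw [Nat.le_div_iff_mul_le hk0', mul_comm]
      exact (hind I hI).le
    have h1 := cover_zero κ hα y Iᶜ (by
      intro u v huv
      by_contra hcon
      push Not at hcon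
      rw [mem_compl, mem_compl, not_not, not_not] at hcon
      exact hI u hcon.1 v hcon.2 huv)
    rw [card_compl, Fintype.card_fin, card_ps, Fintype.card_fin, Fintype.card_fin] at h1
    have h2 : I.card ≤ n := (card_le_univ I).trans (by rw [Fintype.card_fin])
    have h3 : q / k0 ≤ q := Nat.div_le_self _ _
    have h4 : ((q / k0 : ℕ) : ℝ) ≤ q / k0 := Nat.cast_div_le
    have h5 : ((q : ℝ) - (q / k0 : ℕ)) * (N * (2 * g₀ * 2)) ≤ n - I.card := by
      have h6 : (((q - q / k0) * (N * (2 * g₀ * 2)) : ℕ) : ℝ) ≤ ((n - I.card : ℕ) : ℝ) := by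
        exact_mod_cast h1
      rw [Nat.cast_sub h2] at h6
      push_cast [Nat.cast_sub h3] at h6
      exact h6
    have hcR : (c : ℝ) = q * (2 * g₀ * 2) := by rw [hc]; push_cast; ring
    have h7 : (n : ℝ) < (N + 1) * c := by exact_mod_cast hNc'
    have h8 : (N : ℝ) * c ≤ n := by exact_mod_cast hNc
    have hk0R : (0 : ℝ) < k0 := by exact_mod_cast hk0'
    have h9 : ((q / k0 : ℕ) : ℝ) * (N * (2 * g₀ * 2)) ≤ n / k0 := by
      calc ((q / k0 : ℕ) : ℝ) * (N * (2 * g₀ * 2)) ≤ (q / k0) * (N * (2 * g₀ * 2)) := by gcongr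
        _ = (N * c) / k0 := by rw [hcR]; ring
        _ ≤ n / k0 := by gcongr
    have h10 : (n : ℝ) / k0 ≤ ε / 2 * n := by
      rw [div_le_iff₀ hk0R]
      have h11 : 2 / ε * (ε / 2) = 1 := by field_simp
      have h12 : 1 ≤ k0 * (ε / 2) := by
        rw [← h11]
        exact mul_le_mul_of_nonneg_right hk0.le (by positivity)
      have h13 : (0 : ℝ) ≤ n := Nat.cast_nonneg n
      nlinarith
    have h14 : (c : ℝ) ≤ ε / 2 * n := by
      have h15 : (n₁ : ℝ) ≤ n := by
        have : n₁ ≤ n := by omega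
        exact_mod_cast this
      have h16 : 2 * (c : ℝ) / ε < n := lt_of_lt_of_le hn₁ h15
      rw [div_lt_iff₀ hε] at h16
      linarith
    have h17 : (q : ℝ) * (N * (2 * g₀ * 2)) = N * c := by rw [hcR]; ring
    nlinarith
  · intro y
    exact ⟨fun v => degree_le κ (deg_ed hdeg) _ v, fun v => degree_le κ (deg_ed hdeg) _ v⟩
  · -- circuits
    intro Cc hsize v hv
    have h1 := ha₀ a ha0 N (by rw [← hE0]; exact haN) inferInstance (netC κ Cc) (n ^ K)
      (univ.image Sum.inr) (by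
        intro u hu
        cases u with
        | inl p => exact absurd rfl hu
        | inr g => exact mem_image.2 ⟨g, mem_univ _, rfl⟩)
      (card_image_le.trans (by rw [card_univ, Fintype.card_fin]; exact hsize)) v hv
    rw [← hE0] at h1
    have hW : (0 : ℝ) < (a : ℝ) ^ (K' * E0) := by positivity
    have hnK : (0 : ℝ) < (n : ℝ) ^ K := by positivity
    have hpR : (N : ℝ) * ((n : ℝ) ^ K * (n : ℝ) ^ K) ≤ (a : ℝ) ^ (K' * E0) := by
      exact_mod_cast hpow
    rw [le_div_iff₀ hnK]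
    refine le_of_mul_le_mul_right ?_ hW
    rw [one_mul]
    refine le_trans ?_ hpR
    push_cast at h1
    calc _ = (|avg (fun y => bit Cc v (gr B κ (mk (sr B) (tg B) (fun _ => false) y))) -
          avg (fun y => bit Cc v (gr B κ (mk (sr B) (tg B) (fun _ => true) y)))| *
          (a : ℝ) ^ (K' * E0)) * (n : ℝ) ^ K := by ring
      _ ≤ (N * (n : ℝ) ^ K) * (n : ℝ) ^ K := mul_le_mul_of_nonneg_right h1 hnK.le
      _ = _ := by ring

end Pool.Agent.J4H64.VC
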