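import Pool.Agent.J4H64.VC.Core

set_option autoImplicit false
set_option linter.unusedSectionVars false

/-!
Placing facts inside one group, and rerandomising the positions of the hidden groups.
-/

namespace Pool.Agent.J4H64.VC

open Finset
open scoped Classical

/-- all systems of equations `h (tgt e) = a e * h (src e)` on at most `g` edges are solvable -/
def Tree {V E : Type} (src tgt : E → V) (g : ℕ) : Prop :=
  ∀ (Γ : Type) [Group Γ] (F : Finset E) (a : E → Γ), F.card ≤ g →
    ∃ h : V → Γ, ∀ e ∈ F, h (tgt e) = a e * h (src e)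

section place

variable {V E P R : Type} [Fintype V] [Fintype E] [Fintype P] [Fintype R] {src tgt : E → V}

/-- bits along the edges -/
theorem exists_bits {g : ℕ} (hT : Tree src tgt g) (F : Finset E) (hF : F.card ≤ g) (σ : Bool) :
    ∃ b : V → Bool, ∀ e ∈ F, b (tgt e) = xor (b (src e)) σ := by
  obtain ⟨h, hh⟩ := hT (Equiv.Perm Bool) F (fun _ => if σ then Equiv.boolNot else 1) hF
  refine ⟨fun v => h v false, fun e he => ?_⟩
  have h1 := congrArg (fun p : Equiv.Perm Bool => p false) (hh e he)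
  simp only [Equiv.Perm.mul_apply] at h1
  show h (tgt e) false = xor (h (src e) false) σ
  rw [h1]
  cases σ
  · simp
  · simp [Equiv.boolNot]

/-- A partial injection for every edge extends to permutations of the set of all labels used. -/
theorem exists_extend {τ : Finset (E × P × P)} (hPI : PI τ) (X : Finset P)
    (hX : ∀ φ ∈ τ, φ.2.1 ∈ X ∧ φ.2.2 ∈ X) :
    ∃ π : E → Equiv.Perm X, ∀ φ ∈ τ, ∀ x : X, (x : P) = φ.2.1 → ((π φ.1 x : X) : P) = φ.2.2 := by
  have h0 : ∀ e : E, ∃ π : Equiv.Perm X, ∀ φ ∈ τ, φ.1 = e → ∀ x : X, (x : P) = φ.2.1 →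
      ((π x : X) : P) = φ.2.2 := by
    intro e
    let f : X → P := fun x => if h : ∃ z, (e, (x : P), z) ∈ τ then h.choose else x
    have hf : ∀ (x : X) (z : P), (e, (x : P), z) ∈ τ → f x = z := by
      intro x z hz
      have h : ∃ z, (e, (x : P), z) ∈ τ := ⟨z, hz⟩
      have h1 : f x = h.choose := dif_pos h
      rw [h1]
      exact (hPI _ h.choose_spec _ hz rfl).1 rfl
    obtain ⟨π, hπ⟩ := Set.MapsTo.exists_equiv_extend_of_card_eq (α := X) (t := X) (by simp)
      (s := {x : X | ∃ z, (e, (x : P), z) ∈ τ}) (f := f)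
      (by
        rintro x ⟨z, hz⟩
        rw [hf x z hz]
        exact (hX _ hz).2)
      (by
        rintro x ⟨z, hz⟩ x' ⟨z', hz'⟩ h
        rw [hf x z hz, hf x' z' hz'] at h
        exact Subtype.ext ((hPI _ hz _ hz' rfl).2 h))
    refine ⟨π, ?_⟩
    rintro ⟨e', x', z'⟩ hφ he x hx
    simp only at he hx ⊢
    subst he hx
    exact (hπ x ⟨z', hφ⟩).trans (hf x z' hφ)
  choose π hπ using h0
  exact ⟨π, fun φ hφ x hx => hπ φ.1 φ hφ rfl x hx⟩

/-- Placing a set of facts in one group of the signature `σ`. -/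
theorem exists_place {g : ℕ} (hT : Tree src tgt g) {τ : Finset (E × P × P)} (hPI : PI τ)
    (hg : τ.card ≤ g) [Nonempty R] (hR : 2 * τ.card ≤ Fintype.card R) (σ : Bool) :
    ∃ t : V × P → R × Bool,
      (∀ l ∈ labs src tgt τ, ∀ l' ∈ labs src tgt τ, l.1 = l'.1 → t l = t l' → l = l') ∧
      ∀ φ ∈ τ, t (lb tgt φ) = ((t (la src φ)).1, xor (t (la src φ)).2 σ) := by
  let X : Finset P := τ.image (fun φ => φ.2.1) ∪ τ.image (fun φ => φ.2.2)
  have hX : ∀ φ ∈ τ, φ.2.1 ∈ X ∧ φ.2.2 ∈ X := fun φ hφ =>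
    ⟨mem_union_left _ (mem_image.2 ⟨φ, hφ, rfl⟩), mem_union_right _ (mem_image.2 ⟨φ, hφ, rfl⟩)⟩
  have hXc : X.card ≤ 2 * τ.card := by
    refine (card_union_le _ _).trans ?_
    have h1 := card_image_le (s := τ) (f := fun φ => φ.2.1)
    have h2 := card_image_le (s := τ) (f := fun φ => φ.2.2)
    omega
  obtain ⟨π, hπ⟩ := exists_extend hPI X hX
  have hF : (τ.image Prod.fst).card ≤ g := card_image_le.trans hg
  obtain ⟨h, hh⟩ := hT (Equiv.Perm X) (τ.image Prod.fst) π hF
  obtain ⟨b, hb⟩ := exists_bits hT (τ.image Prod.fst) hF σ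
  obtain ⟨sl⟩ : Nonempty (X ↪ R) := Function.Embedding.nonempty_of_card_le (by simp; omega)
  let t : V × P → R × Bool := fun l =>
    if hx : l.2 ∈ X then (sl ((h l.1).symm ⟨l.2, hx⟩), b l.1) else
      (Classical.arbitrary R, false)
  have ht : ∀ (v : V) (x : P) (hx : x ∈ X), t (v, x) = (sl ((h v).symm ⟨x, hx⟩), b v) := by
    intro v x hx
    exact dif_pos hx
  have hlX : ∀ l ∈ labs src tgt τ, l.2 ∈ X := by
    intro l hl
    rcases mem_union.1 hl with h1 | h1
    · obtain ⟨φ, hφ, rfl⟩ := mem_image.1 h1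
      exact (hX φ hφ).1
    · obtain ⟨φ, hφ, rfl⟩ := mem_image.1 h1
      exact (hX φ hφ).2
  refine ⟨t, ?_, ?_⟩
  · rintro ⟨v, x⟩ hl ⟨v', x'⟩ hl' h1 h2
    simp only at h1
    subst h1
    rw [ht v x (hlX _ hl), ht v x' (hlX _ hl')] at h2
    have h3 := congrArg Prod.fst h2
    simp only at h3
    have h4 := (h v).symm.injective (sl.injective h3)
    rw [Subtype.mk.injEq] at h4
    rw [h4]
  · rintro ⟨e, x, z⟩ hφ
    have hx := (hX _ hφ).1
    have hz := (hX _ hφ).2
    have he : e ∈ τ.image Prod.fst := mem_image.2 ⟨_, hφ, rfl⟩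
    unfold la lb
    simp only at hx hz ⊢
    rw [ht _ z hz, ht _ x hx]
    simp only
    rw [hb e he]
    congr 2
    rw [Equiv.symm_apply_eq, hh e he, Equiv.Perm.mul_apply, Equiv.apply_symm_apply]
    exact Subtype.ext (hπ _ hφ ⟨x, hx⟩ rfl).symm

end place

section rerand

variable {V C R : Type} [Fintype V] [Fintype C] [Fintype R]

/-- permutations of the positions supported on the groups `H` -/
def Supp (H : Finset C) (g : V → Equiv.Perm (Ps C R)) : Prop :=
  ∀ v, ∀ p : Ps C R, p.g ∉ H → g v p = p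

/-- the positions of the groups `H` -/
noncomputable def pos (H : Finset C) : Finset (Ps C R) := univ.filter fun p => p.g ∈ H

theorem card_posn (H : Finset C) : (pos H : Finset (Ps C R)).card ≤ H.card * (Fintype.card R * 2) := by
  have h1 : (pos H : Finset (Ps C R)) ⊆ (H ×ˢ (univ : Finset (R × Bool))).image
      fun q => ⟨q.1, q.2.1, q.2.2⟩ := by
    intro p hp
    exact mem_image.2 ⟨(p.g, p.t, p.b), mem_product.2 ⟨(mem_filter.1 hp).2, mem_univ _⟩, rfl⟩
  refine (card_le_card h1).trans (card_image_le.trans ?_)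
  rw [card_product, card_univ, Fintype.card_prod, Fintype.card_bool]

theorem Supp.mem {H : Finset C} {g : V → Equiv.Perm (Ps C R)} (hg : Supp H g) (v : V)
    {p : Ps C R} (hp : p.g ∈ H) : (g v p).g ∈ H := by
  by_contra h
  have h1 := hg v _ h
  have h2 := (g v).injective h1
  rw [h2] at h
  exact h hp

/-- the rearrangements which put the labels of `L` at their targets -/
noncomputable def Gd (H : Finset C) (y : V → Equiv.Perm (Ps C R)) (t : V × Ps C R → Ps C R)
    (L : Finset (V × Ps C R)) : Finset (V → Equiv.Perm (Ps C R)) :=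
  univ.filter fun g => Supp H g ∧ ∀ l ∈ L, y l.1 (g l.1 (t l)) = l.2

theorem card_Gd_step {H : Finset C} {y : V → Equiv.Perm (Ps C R)} {t : V × Ps C R → Ps C R}
    {L : Finset (V × Ps C R)} {l₀ : V × Ps C R} (hl₀ : l₀ ∉ L) (hh : Hid y H l₀)
    (ht : (t l₀).g ∈ H) (hinj : ∀ l ∈ L, l.1 = l₀.1 → t l = t l₀ → l = l₀) :
    (Gd H y t L).card ≤ (pos H : Finset (Ps C R)).card * (Gd H y t (insert l₀ L)).card := by
  rw [← card_product]
  let u : Ps C R := (y l₀.1).symm l₀.2
  let mv : (V → Equiv.Perm (Ps C R)) → (V → Equiv.Perm (Ps C R)) := fun g =>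
    Function.update g l₀.1 (Equiv.swap (g l₀.1 (t l₀)) u * g l₀.1)
  refine card_le_card_of_injOn (fun g => (g l₀.1 (t l₀), mv g)) ?_ ?_
  · intro g hg
    obtain ⟨-, h1, h2⟩ := mem_filter.1 (mem_coe.1 hg)
    have hv : (g l₀.1 (t l₀)).g ∈ H := h1.mem _ ht
    have hu : u.g ∈ H := hh
    refine mem_coe.2 (mem_product.2 ⟨mem_filter.2 ⟨mem_univ _, hv⟩,
      mem_filter.2 ⟨mem_univ _, ?_, ?_⟩⟩)
    · intro v p hp
      by_cases hvl : v = l₀.1
      · subst hvl
        simp only [mv, Function.update_self, Equiv.Perm.mul_apply]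
        rw [h1 _ p hp]
        refine Equiv.swap_apply_of_ne_of_ne ?_ ?_
        · rintro rfl; exact hp hv
        · rintro rfl; exact hp hu
      · simp only [mv, Function.update_of_ne hvl]
        exact h1 v p hp
    · intro l hl
      rw [mem_insert] at hl
      rcases hl with rfl | hl
      · simp only [mv, Function.update_self, Equiv.Perm.mul_apply, Equiv.swap_apply_left]
        simp [u]
      · by_cases hvl : l.1 = l₀.1
        · have h3 := h2 l hl
          rw [hvl] at h3 ⊢
          simp only [mv, Function.update_self, Equiv.Perm.mul_apply]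
          rw [Equiv.swap_apply_of_ne_of_ne]
          · exact h3
          · intro h4
            have h5 := (g l₀.1).injective h4
            exact hl₀ (hinj l hl hvl h5 ▸ hl)
          · intro h4
            rw [h4] at h3
            simp only [u, Equiv.apply_symm_apply] at h3
            exact hl₀ ((Prod.ext hvl h3.symm : l = l₀) ▸ hl)
        · simp only [mv, Function.update_of_ne hvl]
          exact h2 l hl
  · intro g _ g' _ h
    rw [Prod.mk.injEq] at h
    obtain ⟨h1, h2⟩ := h
    funext v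
    have h3 := congrFun h2 v
    by_cases hvl : v = l₀.1
    · subst hvl
      simp only [mv, Function.update_self] at h3
      rw [h1] at h3
      exact mul_left_cancel h3
    · simp only [mv, Function.update_of_ne hvl] at h3
      exact h3

theorem card_Gd {H : Finset C} {y : V → Equiv.Perm (Ps C R)} {t : V × Ps C R → Ps C R}
    (L : Finset (V × Ps C R)) (hh : ∀ l ∈ L, Hid y H l) (ht : ∀ l ∈ L, (t l).g ∈ H)
    (hinj : ∀ l ∈ L, ∀ l' ∈ L, l.1 = l'.1 → t l = t l' → l = l') :
    (univ.filter fun g : V → Equiv.Perm (Ps C R) => Supp H g).card ≤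
      (pos H : Finset (Ps C R)).card ^ L.card * (Gd H y t L).card := by
  induction L using Finset.induction_on with
  | empty => simp [Gd]
  | insert l₀ L hl₀ ih =>
    have h1 := ih (fun l hl => hh l (mem_insert_of_mem hl)) (fun l hl => ht l (mem_insert_of_mem hl))
      (fun l hl l' hl' => hinj l (mem_insert_of_mem hl) l' (mem_insert_of_mem hl'))
    have h2 := card_Gd_step hl₀ (hh l₀ (mem_insert_self _ _)) (ht l₀ (mem_insert_self _ _))
      (fun l hl => hinj l (mem_insert_of_mem hl) l₀ (mem_insert_self _ _))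
    rw [card_insert_of_notMem hl₀, pow_succ, mul_assoc]
    exact h1.trans (Nat.mul_le_mul_left _ h2)

end rerand

end Pool.Agent.J4H64.VC
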