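import Pool.Agent.J4H64.VC.Gauge

set_option autoImplicit false
set_option linter.unusedSectionVars false

/-!
Circuits of constant depth do not see the signature.
-/

namespace Pool.Agent.J4H64.VC

open Finset
open scoped Classical

/-! ### Parameters -/

/-- the bound of the certificates and the accumulated ratio of exponents -/
def st (Δ K : ℕ) : ℕ → ℕ × ℕ
  | 0 => (1, 1)
  | k + 1 => ((st Δ K k).1 + bd Δ (zt (st Δ K k).1
      (K * ((st Δ K k).2 * (8 * (st Δ K k).1 + 2)) + 1)) ((st Δ K k).1 + 1),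
      (st Δ K k).2 * (8 * (st Δ K k).1 + 2))

/-- the size of the certificates at level `k` -/
def el (Δ K k : ℕ) : ℕ := (st Δ K k).1

/-- the number of steps at level `k` -/
def ns (Δ K k : ℕ) : ℕ := K * (st Δ K (k + 1)).2 + 1

/-- the exponents of the sizes of the hidden sets -/
def ex (Δ K d k : ℕ) : ℕ := ∏ i ∈ Ico k d, (8 * el Δ K i + 2)

theorem el_succ (Δ K k : ℕ) :
    el Δ K (k + 1) = el Δ K k + bd Δ (zt (el Δ K k) (ns Δ K k)) (el Δ K k + 1) := rfl

theorem el_mono (Δ K : ℕ) : Monotone (el Δ K) :=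
  monotone_nat_of_le_succ fun k => by rw [el_succ]; exact Nat.le_add_right _ _

theorem one_le_el (Δ K k : ℕ) : 1 ≤ el Δ K k := (el_mono Δ K (Nat.zero_le k) : el Δ K 0 ≤ _)

theorem ex_pos (Δ K d k : ℕ) : 1 ≤ ex Δ K d k :=
  Nat.one_le_iff_ne_zero.2 (prod_ne_zero_iff.2 fun _ _ => by omega)

theorem ex_succ (Δ K : ℕ) {d k : ℕ} (h : k < d) :
    ex Δ K d k = (8 * el Δ K k + 2) * ex Δ K d (k + 1) :=
  prod_eq_prod_Ico_succ_bot h _

theorem st_two (Δ K k : ℕ) : (st Δ K k).2 = ∏ i ∈ range k, (8 * el Δ K i + 2) := by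
  induction k with
  | zero => rfl
  | succ k ih => rw [prod_range_succ, ← ih]; rfl

theorem ex_mul (Δ K : ℕ) {d k : ℕ} (h : k ≤ d) : (st Δ K k).2 * ex Δ K d k = ex Δ K d 0 := by
  rw [st_two]
  unfold ex
  rw [prod_range_mul_prod_Ico _ h, Finset.range_eq_Ico]

/-- the inequality between the exponents -/
theorem exp_ineq (Δ K : ℕ) {d k : ℕ} (h : k < d) :
    (ex Δ K d (k + 1) + 1) * (2 * el Δ K k + ns Δ K k * (2 * el Δ K k)) + 1 + K * ex Δ K d 0 ≤
      (ex Δ K d k - 1) * ns Δ K k := by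
  have h1 : K * ex Δ K d 0 + 1 ≤ ns Δ K k * ex Δ K d (k + 1) := by
    rw [← ex_mul Δ K (Nat.succ_le_of_lt h)]
    have := ex_pos Δ K d (k + 1)
    unfold ns
    nlinarith
  have hE := ex_pos Δ K d (k + 1)
  rw [ex_succ Δ K h]
  set E := ex Δ K d (k + 1)
  set n := ns Δ K k with hn
  set l := el Δ K k
  have hn1 : 1 ≤ n := by rw [hn]; unfold ns; omega
  have h2 : (E + 1) * (2 * l + n * (2 * l)) ≤ 8 * l * E * n := by
    have h3 : 2 * l + n * (2 * l) ≤ 4 * l * n := by nlinarith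
    calc (E + 1) * (2 * l + n * (2 * l)) ≤ (2 * E) * (4 * l * n) :=
          Nat.mul_le_mul (by omega) h3
      _ = 8 * l * E * n := by ring
  have h4 : 8 * l * E * n + n * E ≤ ((8 * l + 2) * E - 1) * n := by
    have h5 : 8 * l * E + E ≤ (8 * l + 2) * E - 1 := by
      have : (8 * l + 2) * E = 8 * l * E + 2 * E := by ring
      omega
    calc 8 * l * E * n + n * E = (8 * l * E + E) * n := by ring
      _ ≤ _ := Nat.mul_le_mul_right _ h5
  omega

/-! ### Levels -/

variable {V E C R : Type} [Fintype V] [Fintype E] [Fintype C] [Fintype R] {src tgt : E → V}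

/-- the certificates of size at most `ℓ` for `f` -/
def Fam (src tgt : E → V) (s : C → Bool) (J : Finset C) (ℓ : ℕ)
    (f : (E → Equiv.Perm (Ps C R)) → Prop) (y : V → Equiv.Perm (Ps C R)) :
    Set (Finset (E × Ps C R × Ps C R)) :=
  {τ | τ.card ≤ ℓ ∧ ∀ ω ∈ VW src tgt s y J, Sat ω τ → f ω}

theorem fam_supp {s : C → Bool} {J : Finset C} {ℓ : ℕ} {f : (E → Equiv.Perm (Ps C R)) → Prop}
    (y g : V → Equiv.Perm (Ps C R)) (hg : Supp J g) :
    Fam src tgt s J ℓ f (y * g) = Fam src tgt s J ℓ f y := by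
  unfold Fam
  rw [VW_supp hg]

theorem levels {Δ K : ℕ}
    (hΔ : ∀ v, (univ.filter fun e => src e = v).card + (univ.filter fun e => tgt e = v).card ≤ Δ)
    {rk : Finset (E × Ps C R × Ps C R) → ℕ} {s : C → Bool} {y : V → Equiv.Perm (Ps C R)}
    {J : ℕ → Finset C} (hJ : ∀ k, J (k + 1) ⊆ J k)
    {N : Type} (val : N → (E → Equiv.Perm (Ps C R)) → Bool) (lev : N → ℕ) (pol : N → Bool)
    (h0 : ∀ v, lev v = 0 → ∀ W, UC 1 W fun ω => val v ω = true)
    (h1 : ∀ v k, lev v = k + 1 → ∃ (A : Finset N) (b : Bool), (∀ u ∈ A, lev u ≤ k) ∧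
      ∀ ω, val v ω = pol v ↔ ∃ u ∈ A, val u ω = b)
    {d : ℕ} (hno : ∀ v k, k < d → lev v = k + 1 → ¬ Bad rk
      (Fam src tgt s (J k) (el Δ K k) (fun ω => val v ω = pol v) y) src tgt s y (J (k + 1))
      (el Δ K k) (ns Δ K k)) :
    ∀ k ≤ d, ∀ v, lev v ≤ k → UC (el Δ K k) (VW src tgt s y (J k)) fun ω => val v ω = true := by
  intro k
  induction k with
  | zero => intro _ v hv; exact h0 v (Nat.le_zero.1 hv) _
  | succ k ih =>
    intro hk v hv
    have ih' := ih (by omega)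
    rcases Nat.lt_or_ge (lev v) (k + 1) with h | h
    · exact (ih' v (by omega)).mono (el_mono Δ K (Nat.le_succ k)) (VW_mono src tgt s y (hJ k))
    · have hlev : lev v = k + 1 := le_antisymm hv h
      obtain ⟨A, b, hA, hval⟩ := h1 v k hlev
      -- certificates for the children
      have hch : ∀ u ∈ A, UC (el Δ K k) (VW src tgt s y (J k)) fun ω => val u ω = b := by
        intro u hu
        have h2 := ih' u (hA u hu)
        cases b
        · refine h2.not.congr fun ω _ => ?_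
          simp
        · exact h2
      have h3 := explore (rk := rk) (F := Fam src tgt s (J k) (el Δ K k)
        (fun ω => val v ω = pol v) y) (f := fun ω => val v ω = pol v) (ℓ := el Δ K k)
        (n := ns Δ K k) (H := J (k + 1)) (s := s) (y := y) hΔ (fun τ hτ => hτ.1) (by
          intro ω hω
          constructor
          · intro hf
            obtain ⟨u, hu, hb⟩ := (hval ω).1 hf
            obtain ⟨c, hc⟩ := hch u hu
            have hω' := VW_mono src tgt s y (hJ k) hω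
            obtain ⟨h4, h5, h6⟩ := hc ω hω'
            refine ⟨c ω, ⟨h5, fun ω' hω'' hs => ?_⟩, h4⟩
            exact (hval ω').2 ⟨u, hu, (h6 ω' hω'' hs).2.2 hb⟩
          · rintro ⟨τ, hτ, hs⟩
            exact hτ.2 ω (VW_mono src tgt s y (hJ k) hω) hs) (hno v k (by omega) hlev)
      have h4 : UC (el Δ K (k + 1)) (VW src tgt s y (J (k + 1))) fun ω => val v ω = pol v :=
        h3.mono (by rw [el_succ]; exact Nat.le_add_left _ _) (Set.Subset.refl _)
      cases hp : pol v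
      · rw [hp] at h4
        refine h4.not.congr fun ω _ => ?_
        simp
      · rw [hp] at h4
        exact h4

/-! ### The hidden sets -/

/-- nested hidden sets -/
noncomputable def Js (c₀ : C) (M : ℕ → C) (a : ℕ) (Δ K d k : ℕ) : Finset C :=
  insert c₀ ((range (a ^ ex Δ K d k)).image M)

theorem js_mono (c₀ : C) (M : ℕ → C) {a : ℕ} (ha : 1 ≤ a) (Δ K d k : ℕ) (h : k < d) :
    Js c₀ M a Δ K d (k + 1) ⊆ Js c₀ M a Δ K d k := by
  unfold Js
  refine insert_subset_insert _ (image_subset_image (range_subset_range.2 ?_))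
  refine Nat.pow_le_pow_right ha ?_
  rw [ex_succ Δ K h]
  exact Nat.le_mul_of_pos_left _ (by omega)

/-- The number of bad namings for one gate. -/
theorem bad_gate [Nonempty R] {Δ K g₀ : ℕ} (hT : Tree src tgt g₀) {d k a : ℕ} (hk : k < d)
    (hg : el Δ K k ≤ g₀) (hR : 2 * el Δ K k ≤ Fintype.card R)
    {rk : Finset (E × Ps C R × Ps C R) → ℕ} (hrk : Function.Injective rk) {s : C → Bool}
    {c₀ : C} {M : ℕ → C} (hM : ∀ i < a ^ ex Δ K d 0, M i ≠ c₀)
    (hMi : ∀ i < a ^ ex Δ K d 0, ∀ j < a ^ ex Δ K d 0, M i = M j → i = j)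
    (hMs : ∀ i < a ^ ex Δ K d 0, ∀ j < a ^ ex Δ K d 0, s (M i) = s (M j))
    (ha1 : 4 * Fintype.card R ≤ a) (ha2 : ns Δ K k + 1 ≤ a)
    (ha3 : 2 ^ (Fintype.card E * ((Fintype.card R * 2) * (Fintype.card R * 2))) *
      el Δ K k ^ ns Δ K k ≤ a) (f : (E → Equiv.Perm (Ps C R)) → Prop) :
    (univ.filter fun y => Bad rk (Fam src tgt s (Js c₀ M a Δ K d k) (el Δ K k) f y) src tgt s y
      (Js c₀ M a Δ K d (k + 1)) (el Δ K k) (ns Δ K k)).card * a ^ (K * ex Δ K d 0) ≤
      Fintype.card (V → Equiv.Perm (Ps C R)) := by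
  have hE := ex_succ Δ K hk
  have hE' := ex_pos Δ K d (k + 1)
  have hE0 : ex Δ K d k ≤ ex Δ K d 0 := by
    rw [← ex_mul Δ K hk.le]
    refine Nat.le_mul_of_pos_left _ ?_
    rw [st_two]
    exact prod_pos fun _ _ => by omega
  have hexp := exp_ineq Δ K hk
  set E1 := ex Δ K d (k + 1)
  set E0 := ex Δ K d k
  set n := ns Δ K k with hn
  set l := el Δ K k
  have hn1 : 1 ≤ n := by rw [hn]; unfold ns; omega
  have ha : 1 ≤ a := by omega
  have hE1 : E1 + 1 ≤ E0 := by
    rw [hE]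
    nlinarith
  have hap : a ^ (E0 - 1) * a = a ^ E0 := by
    rw [← pow_succ]; congr 1; omega
  have h1 : a ^ E1 ≤ a ^ (E0 - 1) := Nat.pow_le_pow_right ha (by omega)
  have h2 : a ^ E0 ≤ a ^ ex Δ K d 0 := Nat.pow_le_pow_right ha hE0
  have h3 : a ^ (E0 - 1) * (n + 1) ≤ a ^ E0 := by
    rw [← hap]; exact Nat.mul_le_mul_left _ ha2
  have hnE : n ≤ a ^ E1 := by
    calc n ≤ a ^ 1 := by rw [pow_one]; omega
      _ ≤ a ^ E1 := Nat.pow_le_pow_right ha hE'
  have h1' : a ^ E1 ≤ a ^ E0 := Nat.pow_le_pow_right ha (by omega)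
  have hjn : ∀ j < n, j < a ^ ex Δ K d 0 := fun j hj =>
    lt_of_lt_of_le hj (hnE.trans (h1'.trans h2))
  have hj1 : ∀ j < a ^ E1, j < a ^ ex Δ K d 0 := fun j hj => lt_of_lt_of_le hj (h1'.trans h2)
  have hj0 : ∀ j < a ^ E0, j < a ^ ex Δ K d 0 := fun j hj => lt_of_lt_of_le hj h2
  -- the sets of groups
  let O : Fin n → Finset C := fun j =>
    (Ico (a ^ E1 + j.val * a ^ (E0 - 1)) (a ^ E1 + (j.val + 1) * a ^ (E0 - 1))).image M
  have hidx : ∀ j : Fin n, ∀ i ∈ Ico (a ^ E1 + j.val * a ^ (E0 - 1))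
      (a ^ E1 + (j.val + 1) * a ^ (E0 - 1)), i < a ^ E0 ∧ a ^ E1 ≤ i := by
    intro j i hi
    obtain ⟨h4, h5⟩ := mem_Ico.1 hi
    have h6 : (j.val + 1) * a ^ (E0 - 1) ≤ n * a ^ (E0 - 1) :=
      Nat.mul_le_mul_right _ (by omega)
    have h7 : a ^ (E0 - 1) * (n + 1) = n * a ^ (E0 - 1) + a ^ (E0 - 1) := by ring
    constructor
    · omega
    · exact le_trans (Nat.le_add_right _ _) h4
  have hmain := bad_small (rk := rk) (s := s) (F := fun y => Fam src tgt s (Js c₀ M a Δ K d k) l f y)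
    (J := Js c₀ M a Δ K d k) (H := Js c₀ M a Δ K d (k + 1)) (n := n) (c₀ := c₀) (D := M)
    hT hg hR hrk (fun y τ hτ => hτ.1) (fun y g hg => fam_supp y g hg)
    (js_mono c₀ M ha Δ K d k hk) (mem_insert_self _ _)
    (fun j hj => ⟨mem_insert_of_mem (mem_image_of_mem _ (mem_range.2 (lt_of_lt_of_le hj hnE))),
      hM j (hjn j hj)⟩)
    (fun i hi j hj h => hMi i (hjn i hi) j (hjn j hj) h) (o := a ^ (E0 - 1)) O
    (fun j => by
      simp only [O]
      rw [card_image_of_injOn, Nat.card_Ico]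
      · have : (j.val + 1) * a ^ (E0 - 1) = j.val * a ^ (E0 - 1) + a ^ (E0 - 1) := by ring
        omega
      · intro i hi i' hi' h
        exact hMi i ((hidx j i (mem_coe.1 hi)).1.trans_le h2) i'
          ((hidx j i' (mem_coe.1 hi')).1.trans_le h2) h)
    (fun j c hc => by
      obtain ⟨i, hi, rfl⟩ := mem_image.1 hc
      obtain ⟨h4, h5⟩ := hidx j i hi
      refine ⟨mem_insert_of_mem (mem_image_of_mem _ (mem_range.2 h4)), ?_,
        hMs i (hj0 i h4) j (hjn j j.isLt)⟩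
      intro h
      rcases mem_insert.1 h with h | h
      · exact hM i (hj0 i h4) h
      · obtain ⟨i', hi', h⟩ := mem_image.1 h
        have h6 : i' < a ^ E1 := mem_range.1 hi'
        have h7 := hMi i' (hj1 i' h6) i (hj0 i h4) h
        omega)
    (fun i j hij => by
      refine disjoint_left.2 fun c hc hc' => ?_
      obtain ⟨x, hx, rfl⟩ := mem_image.1 hc
      obtain ⟨x', hx', h⟩ := mem_image.1 hc'
      have h4 := hMi x' ((hidx j x' hx').1.trans_le h2) x ((hidx i x hx).1.trans_le h2) h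
      subst h4
      obtain ⟨h5, h6⟩ := mem_Ico.1 hx
      obtain ⟨h7, h8⟩ := mem_Ico.1 hx'
      have h9 : i.val < j.val + 1 := by
        have : i.val * a ^ (E0 - 1) < (j.val + 1) * a ^ (E0 - 1) := by omega
        exact lt_of_mul_lt_mul_right this (Nat.zero_le _)
      have h10 : j.val < i.val + 1 := by
        have : j.val * a ^ (E0 - 1) < (i.val + 1) * a ^ (E0 - 1) := by omega
        exact lt_of_mul_lt_mul_right this (Nat.zero_le _)
      exact hij (Fin.ext (by omega)))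
  set BB := (univ.filter fun y => Bad rk (Fam src tgt s (Js c₀ M a Δ K d k) l f y) src tgt s y
      (Js c₀ M a Δ K d (k + 1)) l n).card
  set Y := Fintype.card (V → Equiv.Perm (Ps C R))
  -- the arithmetic
  have hH : (Js c₀ M a Δ K d (k + 1)).card * (Fintype.card R * 2) ≤ a ^ (E1 + 1) := by
    have h4 : (Js c₀ M a Δ K d (k + 1)).card ≤ a ^ E1 + 1 := by
      refine (card_insert_le _ _).trans (Nat.succ_le_succ ?_)
      exact card_image_le.trans (by rw [card_range])
    have h5 : a ^ E1 + 1 ≤ 2 * a ^ E1 := by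
      have := Nat.one_le_pow E1 a ha
      omega
    calc _ ≤ (2 * a ^ E1) * (Fintype.card R * 2) := Nat.mul_le_mul_right _ (h4.trans h5)
      _ = a ^ E1 * (4 * Fintype.card R) := by ring
      _ ≤ a ^ E1 * a := Nat.mul_le_mul_left _ ha1
      _ = a ^ (E1 + 1) := (pow_succ _ _).symm
  have h5 : BB * a ^ (K * ex Δ K d 0) * a ^ ((E1 + 1) * (2 * l + n * (2 * l)) + 1) ≤
      Y * a ^ ((E1 + 1) * (2 * l + n * (2 * l)) + 1) := by
    calc BB * a ^ (K * ex Δ K d 0) * a ^ ((E1 + 1) * (2 * l + n * (2 * l)) + 1)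
        = BB * a ^ ((E1 + 1) * (2 * l + n * (2 * l)) + 1 + K * ex Δ K d 0) := by
          rw [mul_assoc, ← pow_add]; congr 2; ring
      _ ≤ BB * a ^ ((E0 - 1) * n) := Nat.mul_le_mul_left _ (Nat.pow_le_pow_right ha hexp)
      _ = BB * (a ^ (E0 - 1)) ^ n := by rw [pow_mul]
      _ ≤ _ := hmain
      _ ≤ (a ^ (E1 + 1)) ^ (2 * l + n * (2 * l)) * (Y * a) :=
          Nat.mul_le_mul (Nat.pow_le_pow_left hH _) (Nat.mul_le_mul_left _ ha3)
      _ = _ := by rw [← pow_mul, pow_succ]; ring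
  exact Nat.le_of_mul_le_mul_right h5 (Nat.pos_of_ne_zero (pow_ne_zero _ (by omega)))

end Pool.Agent.J4H64.VC
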