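import Pool.Agent.J4H64.VC.Count

set_option autoImplicit false
set_option linter.unusedSectionVars false

/-!
Well placed namings are rare: swap the groups of the facts with random groups.
-/

namespace Pool.Agent.J4H64.VC

open Finset
open scoped Classical

/-- a set of functions whose next value is always one of `ℓ` candidates -/
theorem tree_card {n ℓ : ℕ} {C : Type} (K : Finset (Fin n → C)) (S : (Fin n → C) → Fin n → Finset C)
    (h1 : ∀ k ∈ K, ∀ j, (S k j).card ≤ ℓ) (h2 : ∀ k ∈ K, ∀ j, k j ∈ S k j)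
    (h3 : ∀ k ∈ K, ∀ k' ∈ K, ∀ j, (∀ i < j, k i = k' i) → S k j = S k' j) : K.card ≤ ℓ ^ n := by
  have hidx : ∀ A : Finset C, ∃ f : C → ℕ, (∀ c ∈ A, f c < A.card) ∧
      ∀ c ∈ A, ∀ c' ∈ A, f c = f c' → c = c' := by
    intro A
    refine ⟨fun c => if h : c ∈ A then (A.equivFin ⟨c, h⟩ : ℕ) else 0, ?_, ?_⟩
    · intro c hc
      simp only [dif_pos hc]
      exact (A.equivFin ⟨c, hc⟩).isLt
    · intro c hc c' hc' h
      simp only [dif_pos hc, dif_pos hc'] at h
      have h4 := A.equivFin.injective (Fin.ext h)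
      rw [Subtype.mk.injEq] at h4
      exact h4
  choose f hf1 hf2 using hidx
  have h4 : K.card ≤ (Fintype.piFinset fun _ : Fin n => range ℓ).card := by
    refine card_le_card_of_injOn (fun k j => f (S k j) (k j)) ?_ ?_
    · intro k hk
      refine mem_coe.2 (Fintype.mem_piFinset.2 fun j => mem_range.2 ?_)
      exact (hf1 _ _ (h2 k hk j)).trans_le (h1 k hk j)
    · intro k hk k' hk' h
      have key : ∀ m : ℕ, ∀ j : Fin n, j.val < m → k j = k' j := by
        intro m
        induction m with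
        | zero => intro j hj; exact absurd hj (Nat.not_lt_zero _)
        | succ m ih =>
          intro j hj
          have h5 := h3 k hk k' hk' j fun i hi => ih i (by
            have : i.val < j.val := hi
            omega)
          have h6 := congrFun h j
          simp only at h6
          rw [← h5] at h6
          exact hf2 _ _ (h2 k hk j) _ (h5 ▸ h2 k' hk' j) h6
      funext j
      exact key n j j.isLt
  refine h4.trans ?_
  rw [Fintype.card_piFinset]
  simp

/-- a permutation of the groups swapping `D j` and `k j` -/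
theorem exists_rho {C : Type} {n : ℕ} (D k : Fin n → C) (hD : Function.Injective D)
    (hk : Function.Injective k) (hDk : ∀ i j, D i ≠ k j) :
    ∃ ρ : Equiv.Perm C, (∀ j, ρ (D j) = k j) ∧ (∀ j, ρ (k j) = D j) ∧
      (∀ c, (∀ j, c ≠ D j) → (∀ j, c ≠ k j) → ρ c = c) ∧ ∀ c, ρ (ρ c) = c := by
  let f : C → C := fun c => if h : ∃ j, c = D j then k h.choose else
    if h : ∃ j, c = k j then D h.choose else c
  have h1 : ∀ j, f (D j) = k j := by
    intro j
    have h : ∃ i, D j = D i := ⟨j, rfl⟩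
    have h2 : f (D j) = k h.choose := dif_pos h
    rw [h2, ← hD h.choose_spec]
  have h2 : ∀ j, f (k j) = D j := by
    intro j
    have h : ¬ ∃ i, k j = D i := fun ⟨i, hi⟩ => hDk i j hi.symm
    have h' : ∃ i, k j = k i := ⟨j, rfl⟩
    have h3 : f (k j) = D h'.choose := by simp only [f, dif_neg h, dif_pos h']
    rw [h3, ← hk h'.choose_spec]
  have h3 : ∀ c, (∀ j, c ≠ D j) → (∀ j, c ≠ k j) → f c = c := by
    intro c hc hc'
    have h : ¬ ∃ i, c = D i := fun ⟨i, hi⟩ => hc i hi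
    have h' : ¬ ∃ i, c = k i := fun ⟨i, hi⟩ => hc' i hi
    simp only [f, dif_neg h, dif_neg h']
  have hf : Function.Involutive f := by
    intro c
    by_cases h : ∃ j, c = D j
    · obtain ⟨j, rfl⟩ := h
      rw [h1, h2]
    · by_cases h' : ∃ j, c = k j
      · obtain ⟨j, rfl⟩ := h'
        rw [h2, h1]
      · push Not at h h'
        rw [h3 c h h', h3 c h h']
  exact ⟨hf.toPerm f, h1, h2, h3, hf⟩

variable {V E C R : Type} [Fintype V] [Fintype E] [Fintype C] [Fintype R] {src tgt : E → V}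

/-- a permutation of the groups acts on the positions -/
def psi (ρ : Equiv.Perm C) : Equiv.Perm (Ps C R) where
  toFun p := ⟨ρ p.g, p.t, p.b⟩
  invFun p := ⟨ρ.symm p.g, p.t, p.b⟩
  left_inv p := by simp
  right_inv p := by simp

theorem mk_psi {s : C → Bool} {ρ : Equiv.Perm C} (hρ : ∀ c, s (ρ c) = s c)
    (y : V → Equiv.Perm (Ps C R)) :
    mk src tgt s (y * fun _ => psi ρ) = mk src tgt s y := by
  funext e
  have h1 : psi ρ * sh s = sh s * (psi ρ : Equiv.Perm (Ps C R)) := by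
    ext p
    · rfl
    · rfl
    · simp [psi, sh, Equiv.Perm.mul_apply, hρ]
  unfold mk
  rw [Pi.mul_apply, Pi.mul_apply, mul_inv_rev]
  calc y (tgt e) * psi ρ * sh s * ((psi ρ)⁻¹ * (y (src e))⁻¹)
      = y (tgt e) * (psi ρ * sh s) * (psi ρ)⁻¹ * (y (src e))⁻¹ := by simp only [mul_assoc]
    _ = y (tgt e) * sh s * (y (src e))⁻¹ := by rw [h1]; simp only [mul_assoc, mul_inv_cancel_left]

section swap

variable {rk : Finset (E × Ps C R × Ps C R) → ℕ}
  {F : Set (Finset (E × Ps C R × Ps C R))}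
  {s : C → Bool} {H : Finset C} {ℓ n : ℕ} {c₀ : C} {D : ℕ → C}
  {z z' : V → Equiv.Perm (Ps C R)} {Q : Finset (E × Ps C R × Ps C R)}
  {t : ℕ → Finset (E × Ps C R × Ps C R)} {k : Fin n → C} {ρ : Equiv.Perm C}

/-- the facts whose first label is in the group `c` -/
noncomputable def inG (src : E → V) (z : V → Equiv.Perm (Ps C R)) (c : C)
    (τ : Finset (E × Ps C R × Ps C R)) : Finset (E × Ps C R × Ps C R) :=
  τ.filter fun φ => ((z (la src φ).1).symm (la src φ).2).g = c

/-- the hidden groups of the view of step `j` -/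
noncomputable def Hj (c₀ : C) (k : Fin n → C) (j : ℕ) : Finset C :=
  insert c₀ ((univ.filter fun i : Fin n => i.val < j).image k)

/-- What a well placed naming looks like after the swap. -/
theorem decode (hc₀ : c₀ ∈ H) (hD : ∀ j < n, D j ∈ H ∧ D j ≠ c₀)
    (hkH : ∀ j, k j ∉ H) (hki : Function.Injective k)
    (hρ1 : ∀ j : Fin n, ρ (D j) = k j) (hρ2 : ∀ j : Fin n, ρ (k j) = D j)
    (hρ3 : ∀ c, (∀ j : Fin n, c ≠ D j) → (∀ j, c ≠ k j) → ρ c = c)
    (hρ4 : ∀ c, ρ (ρ c) = c) (hs : ∀ c, s (ρ c) = s c)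
    (hz : z = z' * fun _ => psi ρ) (hg : Good rk F src tgt s H ℓ n c₀ D z Q t) (j : Fin n) :
    lam src tgt z H Q t j.val = (univ.filter fun i : Fin n => i.val < j.val).biUnion
      (fun i => labs src tgt (inG src z' (k i) (t i.val \ Q))) ∧
    (∃ φ ∈ t j.val, ((z' (la src φ).1).symm (la src φ).2).g = k j) ∧
    Tst F src tgt s z' (Hj c₀ k j.val) Q (lam src tgt z H Q t j.val) (t j.val) ∧
    ∀ τ, Tst F src tgt s z' (Hj c₀ k j.val) Q (lam src tgt z H Q t j.val) τ →
      rk (t j.val) ≤ rk τ := by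
  obtain ⟨-, hQ, hN, hch, hR⟩ := hg
  -- the group of a label before and after
  have hgr : ∀ l : V × Ps C R, ((z' l.1).symm l.2).g = ρ ((z l.1).symm l.2).g := by
    intro l
    rw [hz]
    show _ = ρ (ρ.symm ((z' l.1).symm l.2).g)
    rw [Equiv.apply_symm_apply]
  have hρc : ρ c₀ = c₀ := hρ3 c₀ (fun j h => (hD j j.isLt).2 h.symm) fun j h => hkH j (h ▸ hc₀)
  have hmk : mk src tgt s z = mk src tgt s z' := by rw [hz, mk_psi hs]
  have hkc : ∀ j, k j ≠ c₀ := fun j h => hkH j (h ▸ hc₀)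
  -- hidden in the new view implies hidden in the old one
  have hhid : ∀ (j : ℕ) (l : V × Ps C R), Hid z' (Hj c₀ k j) l → Hid z H l := by
    intro j l h
    unfold Hid Hj at h
    rw [hgr l, mem_insert, mem_image] at h
    unfold Hid
    rcases h with h | ⟨i, -, h⟩
    · rw [← hρ4 ((z l.1).symm l.2).g, h, hρc]
      exact hc₀
    · rw [← hρ4 ((z l.1).symm l.2).g, ← h, hρ2]
      exact (hD i i.isLt).1
  have hrem : ∀ i : Fin n, rem src z H Q (t i.val) = inG src z' (k i) (t i.val \ Q) := by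
    intro i
    ext φ
    unfold rem inG
    rw [mem_filter, mem_filter]
    refine and_congr_right fun hφ => ?_
    constructor
    · intro h
      have h1 := (hR i i.isLt).1 (la src φ) (la_mem_labs (mem_filter.2 ⟨hφ, h⟩))
      rw [hgr, h1, hρ1]
    · intro h
      have h1 : ((z (la src φ).1).symm (la src φ).2).g = D i := by
        rw [← hρ4 ((z (la src φ).1).symm (la src φ).2).g, ← hgr, h, hρ2]
      unfold Hid
      rw [h1]
      exact (hD i i.isLt).1
  have hlam : lam src tgt z H Q t j.val = (univ.filter fun i : Fin n => i.val < j.val).biUnion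
      (fun i => labs src tgt (inG src z' (k i) (t i.val \ Q))) := by
    ext l
    unfold lam
    rw [mem_biUnion, mem_biUnion]
    constructor
    · rintro ⟨i, hi, h⟩
      have hi' := mem_range.1 hi
      refine ⟨⟨i, hi'.trans j.isLt⟩, mem_filter.2 ⟨mem_univ _, hi'⟩, ?_⟩
      rw [← hrem ⟨i, hi'.trans j.isLt⟩]
      exact h
    · rintro ⟨i, hi, h⟩
      refine ⟨i.val, mem_range.2 (mem_filter.1 hi).2, ?_⟩
      rw [hrem i]
      exact h
  obtain ⟨⟨hF, hQt, hdis, hal⟩, hmin⟩ := hch j j.isLt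
  refine ⟨hlam, ?_, ⟨hF, hQt, hdis, ?_, hal.2⟩, ?_⟩
  · obtain ⟨φ, hφ⟩ := hN _ hF hQt hal
    have h1 := hφ
    rw [hrem j] at h1
    exact ⟨φ, (mem_sdiff.1 (mem_filter.1 hφ).1).1, (mem_filter.1 h1).2⟩
  · intro φ hφ
    by_cases hφQ : φ ∈ Q
    · left
      have h1 := hQ _ (la_mem_labs (src := src) (tgt := tgt) hφQ)
      have h2 := hQ _ (lb_mem_labs (src := src) (tgt := tgt) hφQ)
      unfold Hid
      rw [hgr, hgr, h1, h2, hρc]
      exact ⟨mem_insert_self _ _, mem_insert_self _ _⟩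
    · right
      rcases hal.1 φ hφ with h1 | h1
      · have h2 : φ ∈ rem src z H Q (t j.val) := mem_filter.2 ⟨mem_sdiff.2 ⟨hφ, hφQ⟩, h1.1⟩
        have h3 := (hR j j.isLt).1 _ (la_mem_labs (src := src) (tgt := tgt) h2)
        have h4 := (hR j j.isLt).1 _ (lb_mem_labs (src := src) (tgt := tgt) h2)
        have h5 : k j ∉ Hj c₀ k j.val := by
          unfold Hj
          rw [mem_insert, mem_image]
          rintro (h | ⟨i, hi, h⟩)
          · exact hkc j h
          · have h6 := (mem_filter.1 hi).2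
            rw [hki h] at h6
            exact absurd h6 (lt_irrefl _)
        unfold Hid
        rw [hgr, hgr, h3, h4, hρ1]
        exact ⟨h5, h5, hmk ▸ (hR j j.isLt).2 φ h2⟩
      · exact ⟨fun h => h1.1 (hhid _ _ h), fun h => h1.2.1 (hhid _ _ h), hmk ▸ h1.2.2⟩
  · rintro τ ⟨h1, h2, h3, h4⟩
    refine hmin τ ⟨h1, h2, h3, ?_, h4.2⟩
    intro φ hφ
    rcases h4.1 φ hφ with h5 | h5
    · exact Or.inl ⟨hhid _ _ h5.1, hhid _ _ h5.2⟩
    · have h6 : Holds (mk src tgt s z) φ := by rw [hmk]; exact h5.2.2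
      have h7 := hid_iff (mk_mem src tgt s z H) h6
      by_cases h8 : Hid z H (la src φ)
      · exact Or.inl ⟨h8, h7.1 h8⟩
      · exact Or.inr ⟨h8, fun h => h8 (h7.2 h), h6⟩

end swap

section count

variable {rk : Finset (E × Ps C R × Ps C R) → ℕ}
  {F : (V → Equiv.Perm (Ps C R)) → Set (Finset (E × Ps C R × Ps C R))}
  {s : C → Bool} {H J : Finset C} {ℓ n : ℕ} {c₀ : C} {D : ℕ → C}

/-- the number of possible sets `Q` -/
theorem card_Q (z : V → Equiv.Perm (Ps C R)) (c₀ : C) :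
    (univ.filter fun Q : Finset (E × Ps C R × Ps C R) =>
      ∀ l ∈ labs src tgt Q, ((z l.1).symm l.2).g = c₀).card ≤
      2 ^ (Fintype.card E * ((Fintype.card R * 2) * (Fintype.card R * 2))) := by
  let X : Finset (E × Ps C R × Ps C R) :=
    (univ : Finset (E × (R × Bool) × (R × Bool))).image fun q =>
      (q.1, z (src q.1) ⟨c₀, q.2.1.1, q.2.1.2⟩, z (tgt q.1) ⟨c₀, q.2.2.1, q.2.2.2⟩)
  have hX : X.card ≤ Fintype.card E * ((Fintype.card R * 2) * (Fintype.card R * 2)) := by
    refine card_image_le.trans ?_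
    rw [card_univ, Fintype.card_prod, Fintype.card_prod, Fintype.card_prod, Fintype.card_bool]
  have h1 : (univ.filter fun Q : Finset (E × Ps C R × Ps C R) =>
      ∀ l ∈ labs src tgt Q, ((z l.1).symm l.2).g = c₀) ⊆ X.powerset := by
    intro Q hQ
    have h2 := (mem_filter.1 hQ).2
    refine mem_powerset.2 fun φ hφ => ?_
    have h3 := h2 _ (la_mem_labs (src := src) (tgt := tgt) hφ)
    have h4 := h2 _ (lb_mem_labs (src := src) (tgt := tgt) hφ)
    obtain ⟨e, x, w⟩ := φ
    unfold la at h3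
    unfold lb at h4
    simp only at h3 h4
    refine mem_image.2 ⟨(e, (((z (src e)).symm x).t, ((z (src e)).symm x).b),
      (((z (tgt e)).symm w).t, ((z (tgt e)).symm w).b)), mem_univ _, ?_⟩
    simp only [Prod.mk.injEq, true_and]
    constructor
    · rw [← Equiv.eq_symm_apply]
      exact Ps.ext h3.symm rfl rfl
    · rw [← Equiv.eq_symm_apply]
      exact Ps.ext h4.symm rfl rfl
  refine (card_le_card h1).trans ?_
  rw [card_powerset]
  exact Nat.pow_le_pow_right (by norm_num) hX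

/-- Well placed namings are rare. -/
theorem good_small (hrk : Function.Injective rk) (hF : ∀ y, ∀ τ ∈ F y, τ.card ≤ ℓ)
    (hFJ : ∀ y g, Supp J g → F (y * g) = F y) (hHJ : H ⊆ J) (hc₀ : c₀ ∈ H)
    (hD : ∀ j < n, D j ∈ H ∧ D j ≠ c₀) (hDi : ∀ i < n, ∀ j < n, D i = D j → i = j)
    {o : ℕ} (O : Fin n → Finset C) (hO : ∀ j, o ≤ (O j).card)
    (hOJ : ∀ j, ∀ c ∈ O j, c ∈ J ∧ c ∉ H ∧ s c = s (D j))
    (hOd : ∀ i j, i ≠ j → Disjoint (O i) (O j)) :
    (univ.filter fun z => ∃ Q t, Good rk (F z) src tgt s H ℓ n c₀ D z Q t).card * o ^ n ≤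
      Fintype.card (V → Equiv.Perm (Ps C R)) *
        (2 ^ (Fintype.card E * ((Fintype.card R * 2) * (Fintype.card R * 2))) * ℓ ^ n) := by
  set GS := univ.filter fun z => ∃ Q t, Good rk (F z) src tgt s H ℓ n c₀ D z Q t
  set K := Fintype.piFinset O
  have hK : o ^ n ≤ K.card := by
    rw [Fintype.card_piFinset]
    calc o ^ n = ∏ _j : Fin n, o := by simp
      _ ≤ _ := prod_le_prod' fun j _ => hO j
  -- the swaps
  have hki : ∀ k ∈ K, Function.Injective k := by
    intro k hk i j hij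
    by_contra hne
    have h1 := Fintype.mem_piFinset.1 hk
    exact (disjoint_left.1 (hOd i j hne)) (h1 i) (hij ▸ h1 j)
  have hkH : ∀ k ∈ K, ∀ j, k j ∉ H := fun k hk j => (hOJ j _ (Fintype.mem_piFinset.1 hk j)).2.1
  have hρ : ∀ k : Fin n → C, ∃ ρ : Equiv.Perm C, k ∈ K → ((∀ j : Fin n, ρ (D j) = k j) ∧
      (∀ j, ρ (k j) = D j) ∧ (∀ c, (∀ j : Fin n, c ≠ D j) → (∀ j, c ≠ k j) → ρ c = c) ∧
      ∀ c, ρ (ρ c) = c) := by
    intro k
    by_cases hk : k ∈ K
    · obtain ⟨ρ, h⟩ := exists_rho (fun j : Fin n => D j) k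
        (fun i j h => Fin.ext (hDi i i.isLt j j.isLt h)) (hki k hk)
        (fun i j h => hkH k hk j (h ▸ (hD i i.isLt).1))
      exact ⟨ρ, fun _ => h⟩
    · exact ⟨1, fun h => absurd h hk⟩
  choose ρ hρ using hρ
  have hsρ : ∀ k ∈ K, ∀ c, s (ρ k c) = s c := by
    intro k hk c
    obtain ⟨h1, h2, h3, -⟩ := hρ k hk
    have h4 := fun j => (hOJ j _ (Fintype.mem_piFinset.1 hk j)).2.2
    by_cases hc : ∃ j : Fin n, c = D j
    · obtain ⟨j, rfl⟩ := hc
      rw [h1, h4]
    · by_cases hc' : ∃ j, c = k j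
      · obtain ⟨j, rfl⟩ := hc'
        rw [h2, h4]
      · push Not at hc hc'
        rw [h3 c hc hc']
  have hψJ : ∀ k ∈ K, Supp J (fun _ : V => (psi (ρ k) : Equiv.Perm (Ps C R))) := by
    intro k hk v p hp
    obtain ⟨h1, h2, h3, -⟩ := hρ k hk
    refine Ps.ext (h3 p.g ?_ ?_) rfl rfl
    · intro j h
      exact hp (hHJ (h ▸ (hD j j.isLt).1))
    · intro j h
      exact hp (h ▸ (hOJ j _ (Fintype.mem_piFinset.1 hk j)).1)
  -- count the pairs
  have h1 : GS.card * K.card ≤ ∑ z' : V → Equiv.Perm (Ps C R),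
      (K.filter fun k => (z' * fun _ => psi (ρ k)) ∈ GS).card := by
    rw [← card_product, ← card_sigma]
    refine card_le_card_of_injOn (fun p => ⟨p.1 * (fun _ => psi (ρ p.2))⁻¹, p.2⟩) ?_ ?_
    · rintro ⟨z, k⟩ h
      have h := mem_product.1 (mem_coe.1 h)
      refine mem_coe.2 (mem_sigma.2 ⟨mem_univ _, mem_filter.2 ⟨h.2, ?_⟩⟩)
      simp only
      rw [inv_mul_cancel_right]
      exact h.1
    · rintro ⟨z, k⟩ _ ⟨z', k'⟩ _ h
      simp only [Sigma.mk.injEq, heq_eq_eq] at h
      obtain ⟨h2, rfl⟩ := h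
      have h3 := mul_right_cancel h2
      rw [h3]
  have h2 : ∀ z' : V → Equiv.Perm (Ps C R),
      (K.filter fun k => (z' * fun _ => psi (ρ k)) ∈ GS).card ≤
      2 ^ (Fintype.card E * ((Fintype.card R * 2) * (Fintype.card R * 2))) * ℓ ^ n := by
    intro z'
    let KQ : Finset (E × Ps C R × Ps C R) → Finset (Fin n → C) := fun Q =>
      K.filter fun k => ∃ t, Good rk (F (z' * fun _ => psi (ρ k))) src tgt s H ℓ n c₀ D
        (z' * fun _ => psi (ρ k)) Q t
    have h3 : (K.filter fun k => (z' * fun _ => psi (ρ k)) ∈ GS) ⊆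
        (univ.filter fun Q : Finset (E × Ps C R × Ps C R) =>
          ∀ l ∈ labs src tgt Q, ((z' l.1).symm l.2).g = c₀).biUnion KQ := by
      intro k hk
      obtain ⟨hk1, hk2⟩ := mem_filter.1 hk
      obtain ⟨Q, t, hg⟩ := (mem_filter.1 hk2).2
      refine mem_biUnion.2 ⟨Q, mem_filter.2 ⟨mem_univ _, ?_⟩, mem_filter.2 ⟨hk1, t, hg⟩⟩
      intro l hl
      have h4 := hg.2.1 l hl
      have h6 : (ρ k).symm ((z' l.1).symm l.2).g = c₀ := h4
      rw [Equiv.symm_apply_eq] at h6
      rw [h6]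
      exact (hρ k hk1).2.2.1 c₀ (fun j h => (hD j j.isLt).2 h.symm)
        fun j h => hkH k hk1 j (h ▸ hc₀)
    refine (card_le_card h3).trans (card_biUnion_le.trans ?_)
    refine (sum_le_card_nsmul _ _ (ℓ ^ n) fun Q _ => ?_).trans ?_
    · -- the candidates
      have h4 : ∀ k, ∃ t, k ∈ KQ Q → Good rk (F z') src tgt s H ℓ n c₀ D
          (z' * fun _ => psi (ρ k)) Q t := by
        intro k
        by_cases hk : k ∈ KQ Q
        · obtain ⟨hk1, t, ht⟩ := mem_filter.1 hk
          rw [hFJ z' _ (hψJ k hk1)] at ht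
          exact ⟨t, fun _ => ht⟩
        · exact ⟨fun _ => ∅, fun h => absurd h hk⟩
      choose t ht using h4
      have hdec : ∀ k ∈ KQ Q, ∀ j : Fin n, _ := fun k hk j =>
        have hk1 := (mem_filter.1 hk).1
        decode hc₀ hD (hkH k hk1) (hki k hk1) (hρ k hk1).1 (hρ k hk1).2.1 (hρ k hk1).2.2.1
          (hρ k hk1).2.2.2 (hsρ k hk1) rfl (ht k hk) j
      refine tree_card (KQ Q) (fun k j => (t k j.val).image
        fun φ => ((z' (la src φ).1).symm (la src φ).2).g) ?_ ?_ ?_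
      · intro k hk j
        exact card_image_le.trans (hF z' _ ((ht k hk).2.2.2.1 j j.isLt).1.1)
      · intro k hk j
        obtain ⟨φ, hφ, h5⟩ := (hdec k hk j).2.1
        exact mem_image.2 ⟨φ, hφ, h5⟩
      · intro k hk k' hk' j hj
        have key : ∀ m : ℕ, ∀ i : Fin n, i.val < m → i ≤ j → t k i.val = t k' i.val := by
          intro m
          induction m with
          | zero => intro i hi; exact absurd hi (Nat.not_lt_zero _)
          | succ m ih =>
            intro i him hij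
            obtain ⟨a1, -, a3, a4⟩ := hdec k hk i
            obtain ⟨b1, -, b3, b4⟩ := hdec k' hk' i
            have hH : Hj c₀ k i.val = Hj c₀ k' i.val := by
              unfold Hj
              congr 1
              refine image_congr fun i' hi' => ?_
              have h6 : i'.val < i.val := (mem_filter.1 (mem_coe.1 hi')).2
              exact hj i' (lt_of_lt_of_le h6 hij)
            have hL : lam src tgt (z' * fun _ => psi (ρ k)) H Q (t k) i.val =
                lam src tgt (z' * fun _ => psi (ρ k')) H Q (t k') i.val := by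
              rw [a1, b1]
              refine biUnion_congr rfl fun i' hi' => ?_
              have h6 : i'.val < i.val := (mem_filter.1 hi').2
              rw [hj i' (lt_of_lt_of_le h6 hij), ih i' (by omega)
                (le_of_lt (lt_of_lt_of_le h6 hij))]
            rw [hH, hL] at a3 a4
            exact hrk (le_antisymm (a4 _ b3) (b4 _ a3))
        rw [key (j.val + 1) j (by omega) le_rfl]
    · rw [smul_eq_mul]
      exact Nat.mul_le_mul_right _ (card_Q z' c₀)
  refine (Nat.mul_le_mul_left _ hK).trans (h1.trans ((sum_le_sum fun z' _ => h2 z').trans ?_))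
  rw [sum_const, card_univ, smul_eq_mul]

/-- The number of bad namings. -/
theorem bad_small [Nonempty R] {g₀ : ℕ} (hT : Tree src tgt g₀) (hℓg : ℓ ≤ g₀)
    (hR : 2 * ℓ ≤ Fintype.card R) (hrk : Function.Injective rk)
    (hF : ∀ y, ∀ τ ∈ F y, τ.card ≤ ℓ)
    (hFJ : ∀ y g, Supp J g → F (y * g) = F y) (hHJ : H ⊆ J) (hc₀ : c₀ ∈ H)
    (hD : ∀ j < n, D j ∈ H ∧ D j ≠ c₀) (hDi : ∀ i < n, ∀ j < n, D i = D j → i = j)
    {o : ℕ} (O : Fin n → Finset C) (hO : ∀ j, o ≤ (O j).card)
    (hOJ : ∀ j, ∀ c ∈ O j, c ∈ J ∧ c ∉ H ∧ s c = s (D j))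
    (hOd : ∀ i j, i ≠ j → Disjoint (O i) (O j)) :
    (univ.filter fun y => Bad rk (F y) src tgt s y H ℓ n).card * o ^ n ≤
      (H.card * (Fintype.card R * 2)) ^ (2 * ℓ + n * (2 * ℓ)) *
      (Fintype.card (V → Equiv.Perm (Ps C R)) *
        (2 ^ (Fintype.card E * ((Fintype.card R * 2) * (Fintype.card R * 2))) * ℓ ^ n)) := by
  have h1 := bad_le_good hT hℓg hR hF hFJ hHJ hc₀ hD hDi (rk := rk) (s := s)
  have h2 := good_small (src := src) (tgt := tgt) hrk hF hFJ hHJ hc₀ hD hDi O hO hOJ hOd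
  calc _ ≤ ((pos H : Finset (Ps C R)).card ^ (2 * ℓ + n * (2 * ℓ)) *
        (univ.filter fun z => ∃ Q t, Good rk (F z) src tgt s H ℓ n c₀ D z Q t).card) * o ^ n :=
        Nat.mul_le_mul_right _ h1
    _ = (pos H : Finset (Ps C R)).card ^ (2 * ℓ + n * (2 * ℓ)) *
        ((univ.filter fun z => ∃ Q t, Good rk (F z) src tgt s H ℓ n c₀ D z Q t).card * o ^ n) := by
        rw [mul_assoc]
    _ ≤ _ := Nat.mul_le_mul (Nat.pow_le_pow_left (card_posn H) _) h2

end count

end Pool.Agent.J4H64.VC
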