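import Pool.Agent.J4H64.VC.Graph

set_option autoImplicit false
set_option linter.unusedSectionVars false

/-!
Few edges of a graph of large girth form a forest: equations along the edges are solvable.
-/

namespace Pool.Agent.J4H64.VC

open Finset
open scoped Classical

variable {q : ℕ} {B : SimpleGraph (Fin q)}

theorem ed_eq {e e' : Ed B} (h : s(sr B e, tg B e) = s(sr B e', tg B e')) : e = e' := by
  rw [Sym2.eq_iff] at h
  rcases h with h | h
  · exact Subtype.ext (Prod.ext h.1 h.2)
  · have h1 : sr B e < tg B e := e.2.1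
    have h2 : sr B e' < tg B e' := e'.2.1
    rw [h.1, h.2] at h1
    exact absurd (h1.trans h2) (lt_irrefl _)

theorem tree_of_girth {g₀ : ℕ} (hB : ∀ (v : Fin q) (w : B.Walk v v), w.IsCycle → g₀ < w.length) :
    Tree (sr B) (tg B) g₀ := by
  intro Γ _ F a
  induction F using Finset.induction_on with
  | empty => intro _; exact ⟨fun _ => 1, fun e he => absurd he (notMem_empty _)⟩
  | insert e F he ih =>
    intro hF
    rw [card_insert_of_notMem he] at hF
    obtain ⟨h, hh⟩ := ih (by omega)
    let GF : SimpleGraph (Fin q) :=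
      SimpleGraph.fromEdgeSet ((F.image fun e' => s(sr B e', tg B e') : Finset (Sym2 (Fin q))) :
        Set (Sym2 (Fin q)))
    have hadj : ∀ e' ∈ F, GF.Adj (sr B e') (tg B e') := by
      intro e' he'
      rw [SimpleGraph.fromEdgeSet_adj]
      exact ⟨mem_coe.2 (mem_image.2 ⟨e', he', rfl⟩), sr_ne_tg B e'⟩
    have hle : GF ≤ B := by
      intro u v huv
      rw [SimpleGraph.fromEdgeSet_adj] at huv
      obtain ⟨e', -, h1⟩ := mem_image.1 (mem_coe.1 huv.1)
      rw [Sym2.eq_iff] at h1
      have h2 : B.Adj (sr B e') (tg B e') := e'.2.2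
      rcases h1 with ⟨h1, h3⟩ | ⟨h1, h3⟩
      · rw [← h1, ← h3]; exact h2
      · rw [← h1, ← h3]; exact h2.symm
    have hedge : ∀ x ∈ GF.edgeSet, x ∈ F.image fun e' => s(sr B e', tg B e') := by
      intro x hx
      rw [SimpleGraph.edgeSet_fromEdgeSet] at hx
      exact mem_coe.1 hx.1
    have hnr : ¬ GF.Reachable (tg B e) (sr B e) := by
      intro hr
      obtain ⟨p, hp⟩ := hr.exists_isPath
      have hpe : ∀ x ∈ p.edges, x ∈ F.image fun e' => s(sr B e', tg B e') := fun x hx =>
        hedge x (p.edges_subset_edgeSet hx)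
      have hlen : p.length ≤ F.card := by
        rw [← p.length_edges, ← List.toFinset_card_of_nodup hp.isTrail.edges_nodup]
        refine (card_le_card fun x hx => hpe x (List.mem_toFinset.1 hx)).trans card_image_le
      have hcyc : (SimpleGraph.Walk.cons (show B.Adj (sr B e) (tg B e) from e.2.2)
          (p.mapLe hle)).IsCycle := by
        rw [SimpleGraph.Walk.cons_isCycle_iff]
        refine ⟨hp.mapLe hle, ?_⟩
        rw [SimpleGraph.Walk.edges_mapLe_eq_edges]
        intro h1
        obtain ⟨e', he', h2⟩ := mem_image.1 (hpe _ h1)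
        rw [ed_eq h2] at he'
        exact he he'
      have h1 := hB _ _ hcyc
      rw [SimpleGraph.Walk.length_cons, SimpleGraph.Walk.length_mapLe] at h1
      omega
    refine ⟨fun v => if GF.Reachable (tg B e) v then
      h v * ((h (tg B e))⁻¹ * a e * h (sr B e)) else h v, ?_⟩
    intro e' he'
    rw [mem_insert] at he'
    rcases he' with rfl | he'
    · simp only
      rw [if_pos (SimpleGraph.Reachable.refl _), if_neg hnr]
      simp only [mul_assoc, mul_inv_cancel_left]
    · have h1 := hadj e' he'
      have h2 : GF.Reachable (tg B e) (sr B e') ↔ GF.Reachable (tg B e) (tg B e') :=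
        ⟨fun h3 => h3.trans h1.reachable, fun h3 => h3.trans h1.symm.reachable⟩
      simp only
      by_cases h3 : GF.Reachable (tg B e) (sr B e')
      · rw [if_pos h3, if_pos (h2.1 h3), hh e' he']
        simp only [mul_assoc]
      · rw [if_neg h3, if_neg fun h4 => h3 (h2.2 h4), hh e' he']

end Pool.Agent.J4H64.VC
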